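import Mathlib

/-! # [H8 AA DEF] definitions for THEOREM AA (almost all plane curves have no integer point, MP_821da1_nt)

Coefficient arrays `e : ℕ → ℕ → ℤ`, `e a b` the coefficient of `x^a y^b`, only `a + b ≤ n` is used. `ev n e x y` is the value of the polynomial,
`fm e k` the polynomial `∑_j e_(k-j),j T^j` = (form of degree `k`)(1,T). For counting: vectors `c : Ix n → ℤ`, `co c` the array. -/

namespace Pool.Agent.H8.AA

open Finset Polynomial

/-- exponents `(a, b)`, `a + b ≤ n` -/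
abbrev Ix (n : ℕ) : Type := {p : Fin (n + 1) × Fin (n + 1) // p.1.val + p.2.val ≤ n}

/-- the index of `x^a y^b` -/
def ix {n : ℕ} (a b : ℕ) (h : a + b ≤ n) : Ix n := ⟨(⟨a, by omega⟩, ⟨b, by omega⟩), h⟩

/-- the array of a vector -/
def co {n : ℕ} (c : Ix n → ℤ) (a b : ℕ) : ℤ := if h : a + b ≤ n then c (ix a b h) else 0

theorem co_of_le {n : ℕ} (c : Ix n → ℤ) {a b : ℕ} (h : a + b ≤ n) : co c a b = c (ix a b h) := dif_pos h

/-- value of the polynomial -/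
def ev (n : ℕ) (e : ℕ → ℕ → ℤ) (x y : ℤ) : ℤ :=
  ∑ k ∈ range (n + 1), ∑ j ∈ range (k + 1), e (k - j) j * (x ^ (k - j) * y ^ j)

/-- the form of degree `k` at `(1,T)` -/
noncomputable def fm (e : ℕ → ℕ → ℤ) (k : ℕ) : ℤ[X] := ∑ j ∈ range (k + 1), monomial j (e (k - j) j)

/-- exchange of `x` and `y` -/
def sw (e : ℕ → ℕ → ℤ) : ℕ → ℕ → ℤ := fun a b => e b a

/-- bound for the coefficients -/
def Bd (n : ℕ) (H : ℕ) (e : ℕ → ℕ → ℤ) : Prop := ∀ a b, a + b ≤ n → |e a b| ≤ (H : ℤ)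

/-- `f(1,t)` and its derivative are not both small, `|t| ≤ 1` -/
def Gd (n : ℕ) (B : ℝ) (e : ℕ → ℕ → ℤ) : Prop :=
  ∀ t : ℝ, |t| ≤ 1 → B < |aeval t (fm e n)| ∨ B < |aeval t (derivative (fm e n))|

/-- the form of degree `n` is irreducible over `ℚ` -/
def Ir (n : ℕ) (e : ℕ → ℕ → ℤ) : Prop :=
  e 0 n ≠ 0 ∧ Irreducible ((fm e n).map (Int.castRingHom ℚ))

/-- the form of degree `n - 1` is in `ℚ f_x + ℚ f_y` -/
def Sp (n : ℕ) (e : ℕ → ℕ → ℤ) : Prop :=
  ∃ w₀ w₁ : ℚ, ∀ j < n, (e (n - 1 - j) j : ℚ) = w₀ * (n - j : ℕ) * e (n - j) j + w₁ * (j + 1 : ℕ) * e (n - 1 - j) (j + 1)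

/-- the complex affine curve `F = 0` is smooth -/
def Sm (F : MvPolynomial (Fin 2) ℤ) : Prop :=
  ∀ a b : ℂ, MvPolynomial.aeval ![a, b] F = 0 → MvPolynomial.aeval ![a, b] (MvPolynomial.pderiv 0 F) ≠ 0 ∨
    MvPolynomial.aeval ![a, b] (MvPolynomial.pderiv 1 F) ≠ 0

/-- the polynomial of a vector -/
noncomputable def pol {n : ℕ} (c : Ix n → ℤ) : MvPolynomial (Fin 2) ℤ :=
  ∑ p : Ix n, MvPolynomial.monomial (Finsupp.single 0 p.1.1.val + Finsupp.single 1 p.1.2.val) (c p)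

theorem fm_coeff (e : ℕ → ℕ → ℤ) (k j : ℕ) : (fm e k).coeff j = if j ≤ k then e (k - j) j else 0 := by
  unfold fm
  rw [finsetSum_coeff]
  simp only [coeff_monomial]
  rw [Finset.sum_ite_eq' (range (k + 1)) j]
  simp only [mem_range, Nat.lt_succ_iff]

theorem fm_deg (e : ℕ → ℕ → ℤ) (k : ℕ) : (fm e k).natDegree ≤ k := by
  rw [natDegree_le_iff_coeff_eq_zero]
  intro j hj
  rw [fm_coeff, if_neg (by omega)]

theorem fm_aeval (e : ℕ → ℕ → ℤ) (k : ℕ) (t : ℝ) :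
    aeval t (fm e k) = ∑ j ∈ range (k + 1), (e (k - j) j : ℝ) * t ^ j := by
  unfold fm
  rw [map_sum]
  refine Finset.sum_congr rfl fun j _ => ?_
  rw [aeval_monomial]
  simp

theorem fm_daeval (e : ℕ → ℕ → ℤ) (k : ℕ) (t : ℝ) :
    aeval t (derivative (fm e k)) = ∑ j ∈ range (k + 1), (e (k - j) j : ℝ) * (j * t ^ (j - 1)) := by
  unfold fm
  rw [map_sum, map_sum]
  refine Finset.sum_congr rfl fun j _ => ?_
  rw [derivative_monomial, aeval_monomial]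
  simp
  ring

/-- `F(x,y) = x^n ∑_k x^-(n-k) φ_k(y/x)` -/
theorem ev_eq (n : ℕ) (e : ℕ → ℕ → ℤ) (x y : ℤ) (hx : x ≠ 0) :
    (ev n e x y : ℝ) = (x : ℝ) ^ n * ∑ k ∈ range (n + 1), (1 / (x : ℝ)) ^ (n - k) * aeval ((y : ℝ) / x) (fm e k) := by
  have hx' : (x : ℝ) ≠ 0 := by exact_mod_cast hx
  unfold ev
  push_cast
  rw [Finset.mul_sum]
  refine Finset.sum_congr rfl fun k hk => ?_
  have hk' : k ≤ n := by
    have := Finset.mem_range.1 hk
    omega
  rw [fm_aeval, Finset.mul_sum, Finset.mul_sum]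
  refine Finset.sum_congr rfl fun j hj => ?_
  have hj' : j ≤ k := by
    have := Finset.mem_range.1 hj
    omega
  have h1 : (x : ℝ) ^ n = (x : ℝ) ^ (n - k) * ((x : ℝ) ^ (k - j) * (x : ℝ) ^ j) := by
    rw [← pow_add, ← pow_add]
    congr 1
    omega
  rw [h1, div_pow, div_pow, one_pow]
  field_simp

theorem ev_sw (n : ℕ) (e : ℕ → ℕ → ℤ) (x y : ℤ) : ev n (sw e) x y = ev n e y x := by
  unfold ev sw
  refine Finset.sum_congr rfl fun k _ => ?_
  rw [← Finset.sum_range_reflect]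
  refine Finset.sum_congr rfl fun j hj => ?_
  have hj' : j ≤ k := by
    have := Finset.mem_range.1 hj
    omega
  have h1 : k + 1 - 1 - j = k - j := by omega
  have h2 : k - (k - j) = j := by omega
  rw [h1, h2, mul_comm (x ^ j)]

end Pool.Agent.H8.AA
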