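import Pool.Agent.H42.AA.Half3
import Pool.Agent.H97.AA.Isw
import Pool.Agent.H97.AA.Isw

/-! # [H8 AA MED] The middle range: few integer points with `|F| ≤ H`

`K`: that of `str`, `K ≥ 1`. First one chart (`half`): points with `|y| ≤ |x|`. CLASS of `(x,y)`: the sign of `x`; `s = Nat.log 2 |x|` (`X = 2^s ≤ |x| < 2^(s+1)`;
as `K' A² ≤ |x|` take `K' = 2K`, so `K A² ≤ X`); the window `⌊(|x| - X) K A / X⌋₊ ≤ K A`; the piece = number of real roots of `(fm e n)'` that are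
`< y/x` (`≤ n - 1`; `(fm e n)' ≠ 0` as `fm e n` has degree `n ≥ 2`). In one class: `X ≤ |x| ≤ 2X`, `|x_i - x_j| ≤ X/(K A)`, and no root of the
derivative between two `t`'s (if `t_i < t_j` have the same number of roots below, there is none in `[t_i, t_j)`; at `t_j` itself the derivative is
not zero: `|φ_n(t_j)| < H/A` by (1) in `str`, so `Gd` gives it; `small_top` below states what is needed). So all triples are collinear (`str`),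
and the class has `≤ n (2 H^(1/n) + 1)` points (`cls`). Number of classes: `2 · (E log_2 H + 1) · (K A + 1) · n`.
Second chart: `sw e` (`ev_sw`; `Ir n (sw e)`: `ir_sw`). -/

namespace Pool.Agent.H8.AA

open Polynomial

/-- the reversed polynomial is irreducible too (`e n 0 ≠ 0` since `f(1,0) ≠ 0`; `Polynomial.reverse`, or through the homogeneous form) -/
theorem ir_sw (n : ℕ) (hn : 2 ≤ n) (e : ℕ → ℕ → ℤ) (h : Ir n e) : Ir n (sw e) :=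
  Pool.Agent.H97.AA.ir_sw n hn e h

theorem half (n : ℕ) (hn : 3 ≤ n) (E : ℕ) : ∃ C K : ℝ, 0 ≤ C ∧ 1 ≤ K ∧ ∀ (e : ℕ → ℕ → ℤ) (H : ℕ) (A : ℝ), 1 ≤ H →
    1 ≤ A → Bd n H e → Ir n e → Gd n (H / A) e → ∀ S : Finset (ℤ × ℤ),
    (∀ P ∈ S, |ev n e P.1 P.2| ≤ (H : ℤ) ∧ |P.2| ≤ |P.1| ∧ K * A ^ 2 ≤ (|P.1| : ℤ) ∧ |P.1| ≤ (H : ℤ) ^ E) →
    (S.card : ℝ) ≤ C * A * (H : ℝ) ^ (1 / (n : ℝ)) * (1 + Real.log H) :=
  Pool.Agent.H42.AA.half0 n hn E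

theorem med (n : ℕ) (hn : 3 ≤ n) (E : ℕ) : ∃ C K : ℝ, 0 ≤ C ∧ 1 ≤ K ∧ ∀ (e : ℕ → ℕ → ℤ) (H : ℕ) (A : ℝ), 1 ≤ H →
    1 ≤ A → Bd n H e → Ir n e → Gd n (H / A) e → Gd n (H / A) (sw e) → ∀ S : Finset (ℤ × ℤ),
    (∀ P ∈ S, |ev n e P.1 P.2| ≤ (H : ℤ) ∧ K * A ^ 2 ≤ (max |P.1| |P.2| : ℤ) ∧ max |P.1| |P.2| ≤ (H : ℤ) ^ E) →
    (S.card : ℝ) ≤ C * A * (H : ℝ) ^ (1 / (n : ℝ)) * (1 + Real.log H) :=
  Pool.Agent.H42.AA.med0 ir_sw n hn E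

end Pool.Agent.H8.AA
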