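import Pool.Agent.H8.AA.Def
import Pool.Agent.H14.AA.Cls

/-! # [H8 AA CLS] Collinear integer points with small value of `F`

`top_ne`: the form `f` of degree `n` has no rational zero: `f(v) = v_0^n f(1, v_1/v_0)` and an irreducible polynomial of degree `n ≥ 2` over `ℚ`
has no root; if `v_0 = 0` then `f(v) = e_0n v_1^n`. (`(fm e n).natDegree = n` as `e_0n ≠ 0`.)
`cls`: if `S` has at least two points take `P_0 ≠ P_1` in `S`, `v = (P_1 - P_0)/gcd`, a primitive vector; every `P` in `S` is `P_0 + k v`, `k`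
integer (collinear and `v` primitive), `k ↦ P` injective. `F(P_0 + k v)` is the value at `k` of an integer polynomial `Q`
(`Q = ∑ e_ab (C x_0 + C v_0 X)^a (C y_0 + C v_1 X)^b`), `natDegree Q ≤ n`, `Q.coeff n = f(v) ≠ 0`; see `H14.AA.line_count_gen`.
If `S` has at most one point: `1 ≤ n (2 H^(1/n) + 1)`. -/

namespace Pool.Agent.H8.AA

open Polynomial

theorem top_ne (n : ℕ) (hn : 2 ≤ n) (e : ℕ → ℕ → ℤ) (hirr : Ir n e) (v w : ℤ) (h : v ≠ 0 ∨ w ≠ 0) :
    ∑ j ∈ Finset.range (n + 1), e (n - j) j * (v ^ (n - j) * w ^ j) ≠ 0 := by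
  obtain ⟨he, hirr⟩ := hirr
  by_cases hv : v = 0
  · have hw : w ≠ 0 := by
      rcases h with h | h
      · exact absurd hv h
      · exact h
    have hsum : ∑ j ∈ Finset.range (n + 1), e (n - j) j * (v ^ (n - j) * w ^ j) = e 0 n * w ^ n := by
      rw [Finset.sum_eq_single n]
      · simp
      · intro j hj hjn
        have hj' := Finset.mem_range.1 hj
        rw [hv, zero_pow (by omega)]
        ring
      · intro hn'
        exact absurd (Finset.mem_range.2 (by omega)) hn'
    rw [hsum]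
    exact mul_ne_zero he (pow_ne_zero _ hw)
  · intro h0
    have hvq : (v : ℚ) ≠ 0 := by exact_mod_cast hv
    have hroot : ((fm e n).map (Int.castRingHom ℚ)).IsRoot ((w : ℚ) / v) := by
      have h1 : ((∑ j ∈ Finset.range (n + 1), e (n - j) j * (v ^ (n - j) * w ^ j) : ℤ) : ℚ) = 0 := by
        rw [h0]
        simp
      have h2 : ((∑ j ∈ Finset.range (n + 1), e (n - j) j * (v ^ (n - j) * w ^ j) : ℤ) : ℚ) =
          (v : ℚ) ^ n * ((fm e n).map (Int.castRingHom ℚ)).eval ((w : ℚ) / v) := by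
        unfold fm
        rw [Polynomial.map_sum, eval_finsetSum, Finset.mul_sum]
        push_cast
        refine Finset.sum_congr rfl fun j hj => ?_
        have hj' := Finset.mem_range.1 hj
        rw [map_monomial, eval_monomial, eq_intCast, div_pow]
        have h3 : (v : ℚ) ^ n = (v : ℚ) ^ (n - j) * (v : ℚ) ^ j := by
          rw [← pow_add]
          congr 1
          omega
        rw [h3]
        field_simp
      rw [h2] at h1
      rcases mul_eq_zero.1 h1 with h3 | h3
      · exact absurd h3 (pow_ne_zero _ hvq)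
      · exact h3
    have hdeg := degree_eq_one_of_irreducible_of_root hirr hroot
    have hdeg2 : ((fm e n).map (Int.castRingHom ℚ)).natDegree = 1 := natDegree_eq_of_degree_eq_some hdeg
    have hcn : ((fm e n).map (Int.castRingHom ℚ)).coeff n ≠ 0 := by
      rw [coeff_map, fm_coeff, if_pos le_rfl, Nat.sub_self, eq_intCast]
      exact_mod_cast he
    have hle := le_natDegree_of_ne_zero hcn
    rw [hdeg2] at hle
    omega

/-- the restriction of `F` to a line -/
private theorem restr (n : ℕ) (hn : 2 ≤ n) (e : ℕ → ℕ → ℤ) (hirr : Ir n e) (a b v w : ℤ) (hvw : (v, w) ≠ (0, 0)) :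
    ∃ Q : ℤ[X], Q.natDegree = n ∧ ∀ k : ℤ, Q.eval k = ev n e (a + v * k) (b + w * k) := by
  have hvw' : v ≠ 0 ∨ w ≠ 0 := by
    by_contra hcon
    push Not at hcon
    exact hvw (by rw [hcon.1, hcon.2])
  obtain ⟨Q, hQ⟩ : ∃ Q : ℤ[X], Q = ∑ k ∈ Finset.range (n + 1), ∑ j ∈ Finset.range (k + 1),
      C (e (k - j) j) * ((C a + C v * X) ^ (k - j) * (C b + C w * X) ^ j) := ⟨_, rfl⟩
  have hterm : ∀ k ∈ Finset.range (n + 1), ∀ j ∈ Finset.range (k + 1),
      (C (e (k - j) j) * ((C a + C v * X : ℤ[X]) ^ (k - j) * (C b + C w * X) ^ j)).natDegree ≤ k := by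
    intro k _ j hj
    have hj' := Finset.mem_range.1 hj
    refine (natDegree_C_mul_le _ _).trans ((Pool.Agent.H14.AA.mono_deg a b v w _ _).trans ?_)
    omega
  have hle : Q.natDegree ≤ n := by
    rw [hQ]
    refine natDegree_sum_le_of_forall_le _ _ fun k hk => natDegree_sum_le_of_forall_le _ _ fun j hj => ?_
    have hk' := Finset.mem_range.1 hk
    exact (hterm k hk j hj).trans (by omega)
  have hco : Q.coeff n = ∑ j ∈ Finset.range (n + 1), e (n - j) j * (v ^ (n - j) * w ^ j) := by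
    rw [hQ, finsetSum_coeff, Finset.sum_eq_single n]
    · rw [finsetSum_coeff]
      refine Finset.sum_congr rfl fun j hj => ?_
      have hj' := Finset.mem_range.1 hj
      have h1 := Pool.Agent.H14.AA.mono_coeff a b v w (n - j) j
      rw [Nat.sub_add_cancel (by omega)] at h1
      rw [coeff_C_mul, h1]
    · intro k hk hkn
      have hk' := Finset.mem_range.1 hk
      rw [finsetSum_coeff]
      refine Finset.sum_eq_zero fun j hj => ?_
      exact coeff_eq_zero_of_natDegree_lt (lt_of_le_of_lt (hterm k hk j hj) (by omega))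
    · intro hn'
      exact absurd (Finset.mem_range.2 (by omega)) hn'
  refine ⟨Q, le_antisymm hle (le_natDegree_of_ne_zero ?_), ?_⟩
  · rw [hco]
    exact top_ne n hn e hirr v w hvw'
  · intro k
    rw [hQ]
    unfold ev
    rw [eval_finsetSum]
    refine Finset.sum_congr rfl fun i _ => ?_
    rw [eval_finsetSum]
    refine Finset.sum_congr rfl fun j _ => ?_
    simp

theorem cls (n : ℕ) (hn : 2 ≤ n) (e : ℕ → ℕ → ℤ) (hirr : Ir n e) (H : ℝ) (hH : 1 ≤ H) (S : Finset (ℤ × ℤ))
    (hcol : ∀ P ∈ S, ∀ Q ∈ S, ∀ R ∈ S, (Q.1 - P.1) * (R.2 - P.2) = (R.1 - P.1) * (Q.2 - P.2))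
    (hev : ∀ P ∈ S, |((ev n e P.1 P.2 : ℤ) : ℝ)| ≤ H) : (S.card : ℝ) ≤ n * (2 * H ^ (1 / (n : ℝ)) + 1) := by
  have hH0 : (0 : ℝ) ≤ H := by linarith
  refine Pool.Agent.H14.AA.line_count_gen (by omega) (ev n e) (restr n hn e hirr) H (H ^ (1 / (n : ℝ)))
    (Real.rpow_nonneg hH0 _) ?_ S hcol hev
  rw [← Real.rpow_natCast (H ^ (1 / (n : ℝ))) n, ← Real.rpow_mul hH0, one_div, inv_mul_cancel₀, Real.rpow_one]
  have : (n : ℝ) ≠ 0 := by
    have : n ≠ 0 := by omega
    exact_mod_cast this
  exact this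

end Pool.Agent.H8.AA
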