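import Pool.Agent.H8.AA.Box
import Pool.Agent.H12.ON.Fam

/-! # [H8 AA LRG] Few vectors with a large integer zero

`H12.ON.family n hn` gives `E`. `fib` with `J = {p : a + b ≤ n - 2}`, `M = n`: a finite set `T` of vectors that agree outside `J`, all in `S`: choose
`c_0 ∈ T`, `G = pol c_0`; for `c ∈ T`: `(pol c - G).totalDegree ≤ n - 2`, smooth (`Sm` is `H12.ON.Smooth` word for word, `Iff.rfl`), an integer zero `P` with a coordinate `> H^E`, so `(pol c, P)` is in
the set of `family`, `c ↦ pol c` is injective (`pol_coeff`): `|T| ≤ n`. Hypotheses of `family` for `G`: `hom_irr`: `Ir n (co c)` gives irreducibility of the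
form (if `f = a b` over `ℚ`, put `x = 1`: one of them, say `a`, has `a(1,T)` constant, so `b(1,T)` has degree `n`, `b` has degree `n` and `a` is constant);
`sp_of`: equality of the forms of degree `n-1` gives `Sp` (compare coefficients of `x^(n-1-j) y^j`).
`|J| ≥ 1`, and `n (2H+1)^(|Ix n| - |J|)`, `|Ix n| - |J| = 2n + 1 ≤ |Ix n| - 1`. -/

namespace Pool.Agent.H8.AA

open MvPolynomial

private theorem exp_eq (a b : ℕ) : ((Finsupp.single (0 : Fin 2) a + Finsupp.single 1 b : Fin 2 →₀ ℕ) 0 = a) ∧
    ((Finsupp.single (0 : Fin 2) a + Finsupp.single 1 b : Fin 2 →₀ ℕ) 1 = b) := by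
  constructor <;> simp

private theorem deg_le (b : MvPolynomial (Fin 2) ℚ) :
    (aeval ![(1 : Polynomial ℚ), Polynomial.X] b).natDegree ≤ b.totalDegree := by
  conv_lhs => rw [b.as_sum]
  rw [map_sum]
  refine Polynomial.natDegree_sum_le_of_forall_le _ _ fun m hm => ?_
  rw [aeval_monomial, Finsupp.prod_fintype _ _ (by simp), Fin.prod_univ_two]
  have h1 : m 1 ≤ b.totalDegree := by
    have h2 := le_totalDegree hm
    have h3 : (m.sum fun _ e => e) = m 0 + m 1 := by
      rw [Finsupp.sum_fintype _ _ (by simp), Fin.sum_univ_two]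
    omega
  refine le_trans ?_ h1
  simp only [Matrix.cons_val_zero, Matrix.cons_val_one, one_pow, one_mul]
  exact (Polynomial.natDegree_C_mul_le _ _).trans (by rw [Polynomial.natDegree_X_pow])

private theorem dh_hom {n : ℕ} (c : Ix n → ℤ) :
    aeval ![(1 : Polynomial ℚ), Polynomial.X] (map (Int.castRingHom ℚ) (homogeneousComponent n (pol c))) =
      (fm (co c) n).map (Int.castRingHom ℚ) := by
  have hP : (map (Int.castRingHom ℚ) (homogeneousComponent n (pol c))).IsHomogeneous n :=
    (homogeneousComponent_isHomogeneous n (pol c)).map _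
  have h1 := H12.ON.deh_eq hP
  rw [h1, map_sum, fm, Polynomial.map_sum]
  refine Finset.sum_congr rfl fun j hj => ?_
  have hj' : j ≤ n := by
    have := Finset.mem_range.1 hj
    omega
  have h2 : (H12.ON.ftop n (map (Int.castRingHom ℚ) (homogeneousComponent n (pol c)))).coeff j =
      ((co c (n - j) j : ℤ) : ℚ) := by
    unfold H12.ON.ftop
    rw [Polynomial.finsetSum_coeff]
    simp only [Polynomial.coeff_monomial]
    rw [Finset.sum_ite_eq' (Finset.range (n + 1)) j, if_pos hj, coeff_map, coeff_homogeneousComponent, if_pos, pol_coeff,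
      (exp_eq _ _).1, (exp_eq _ _).2]
    · rfl
    · rw [map_add, Finsupp.degree_single, Finsupp.degree_single]
      omega
  rw [h2, aeval_monomial, Finsupp.prod_fintype _ _ (by simp), Fin.prod_univ_two, (exp_eq _ _).1, (exp_eq _ _).2,
    Polynomial.map_monomial]
  simp only [Matrix.cons_val_zero, Matrix.cons_val_one, one_pow, one_mul]
  rw [← Polynomial.C_mul_X_pow_eq_monomial]
  rfl

theorem hom_irr (n : ℕ) (hn : 2 ≤ n) (c : Ix n → ℤ) (h : Ir n (co c)) :
    Irreducible (MvPolynomial.map (Int.castRingHom ℚ) (MvPolynomial.homogeneousComponent n (pol c))) := by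
  have hd := dh_hom c
  set P := map (Int.castRingHom ℚ) (homogeneousComponent n (pol c)) with hPdef
  have hP : P.IsHomogeneous n := (homogeneousComponent_isHomogeneous n (pol c)).map _
  set φ : MvPolynomial (Fin 2) ℚ →ₐ[ℚ] Polynomial ℚ := aeval ![(1 : Polynomial ℚ), Polynomial.X] with hφ
  have hdeg : ((fm (co c) n).map (Int.castRingHom ℚ)).natDegree = n := by
    apply le_antisymm
    · exact (Polynomial.natDegree_map_le).trans (fm_deg _ _)
    · apply Polynomial.le_natDegree_of_ne_zero
      rw [Polynomial.coeff_map, fm_coeff, if_pos le_rfl, Nat.sub_self]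
      have := h.1
      simpa using this
  have hP0 : P ≠ 0 := by
    intro h0
    rw [h0, map_zero] at hd
    exact h.2.ne_zero hd.symm
  have hPd : P.totalDegree = n := hP.totalDegree hP0
  have key : ∀ a b : MvPolynomial (Fin 2) ℚ, P = a * b → IsUnit (φ a) → IsUnit a := by
    intro a b hab hu
    have ha0 : a ≠ 0 := by
      rintro rfl
      exact hP0 (by rw [hab, zero_mul])
    have hb0 : b ≠ 0 := by
      rintro rfl
      exact hP0 (by rw [hab, mul_zero])
    have h1 : a.totalDegree + b.totalDegree = n := by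
      rw [← totalDegree_mul_of_isDomain ha0 hb0, ← hab, hPd]
    have h2 : φ a * φ b = (fm (co c) n).map (Int.castRingHom ℚ) := by
      rw [← map_mul, ← hab, hd]
    have h3 : (φ a).natDegree = 0 := Polynomial.natDegree_eq_zero_of_isUnit hu
    have h4 : φ b ≠ 0 := by
      intro h5
      rw [h5, mul_zero] at h2
      exact h.2.ne_zero h2.symm
    have h5 : (φ b).natDegree = n := by
      have h6 := congrArg Polynomial.natDegree h2
      rw [Polynomial.natDegree_mul hu.ne_zero h4, h3, hdeg] at h6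
      omega
    have h6 := deg_le b
    rw [← hφ, h5] at h6
    have h7 : a.totalDegree = 0 := by omega
    rw [totalDegree_eq_zero_iff_eq_C] at h7
    rw [h7] at ha0 ⊢
    refine (isUnit_iff_ne_zero.2 ?_).map C
    intro h8
    rw [h8, C_0] at ha0
    exact ha0 rfl
  refine ⟨fun hu => ?_, fun a b hab => ?_⟩
  · have h1 : IsUnit (φ P) := hu.map φ
    rw [hd] at h1
    have := Polynomial.natDegree_eq_zero_of_isUnit h1
    omega
  · have h1 : (fm (co c) n).map (Int.castRingHom ℚ) = φ a * φ b := by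
      rw [← map_mul, ← hab, hd]
    rcases h.2.isUnit_or_isUnit h1 with h2 | h2
    · exact Or.inl (key a b hab h2)
    · exact Or.inr (key b a (by rw [hab, mul_comm]) h2)

theorem sp_of (n : ℕ) (hn : 2 ≤ n) (c : Ix n → ℤ) (w : Fin 2 → ℚ)
    (h : MvPolynomial.map (Int.castRingHom ℚ) (MvPolynomial.homogeneousComponent (n - 1) (pol c)) =
      ∑ i, MvPolynomial.C (w i) * MvPolynomial.pderiv i
        (MvPolynomial.map (Int.castRingHom ℚ) (MvPolynomial.homogeneousComponent n (pol c)))) : Sp n (co c) := by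
  refine ⟨w 0, w 1, fun j hj => ?_⟩
  have h1 := congrArg (coeff (Finsupp.single 0 (n - 1 - j) + Finsupp.single 1 j)) h
  have hc : ∀ a b : ℕ, a + b = n →
      coeff (Finsupp.single 0 a + Finsupp.single 1 b) (map (Int.castRingHom ℚ) (homogeneousComponent n (pol c))) =
        ((co c a b : ℤ) : ℚ) := by
    intro a b hab
    rw [coeff_map, coeff_homogeneousComponent, if_pos, pol_coeff, (exp_eq _ _).1, (exp_eq _ _).2]
    · rfl
    · rw [map_add, Finsupp.degree_single, Finsupp.degree_single]
      exact hab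
  have e0 : (Finsupp.single (0 : Fin 2) (n - 1 - j) + Finsupp.single 1 j + Finsupp.single 0 1 : Fin 2 →₀ ℕ) =
      Finsupp.single 0 (n - j) + Finsupp.single 1 j := by
    rw [add_right_comm, ← Finsupp.single_add]
    congr 2
    omega
  have e1 : (Finsupp.single (0 : Fin 2) (n - 1 - j) + Finsupp.single 1 j + Finsupp.single 1 1 : Fin 2 →₀ ℕ) =
      Finsupp.single 0 (n - 1 - j) + Finsupp.single 1 (j + 1) := by
    rw [add_assoc, ← Finsupp.single_add]
  rw [coeff_map, coeff_homogeneousComponent, if_pos, pol_coeff, (exp_eq _ _).1, (exp_eq _ _).2, Fin.sum_univ_two,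
    coeff_add, coeff_C_mul, coeff_C_mul, coeff_pderiv, coeff_pderiv, e0, e1, hc _ _ (by omega), hc _ _ (by omega),
    (exp_eq _ _).1, (exp_eq _ _).2] at h1
  · have h2 : ((n - 1 - j : ℕ) : ℚ) + 1 = ((n - j : ℕ) : ℚ) := by
      have : n - j = n - 1 - j + 1 := by omega
      rw [this]
      push_cast
      ring
    have h3 : ((Int.castRingHom ℚ) (co c (n - 1 - j) j) : ℚ) = (co c (n - 1 - j) j : ℚ) := rfl
    rw [h2, h3] at h1
    rw [h1]
    push_cast
    ring
  · rw [map_add, Finsupp.degree_single, Finsupp.degree_single]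
    omega

private theorem pol_inj {n : ℕ} {c d : Ix n → ℤ} (h : pol c = pol d) : c = d := by
  funext p
  have h1 := congrArg (coeff (Finsupp.single 0 p.1.1.val + Finsupp.single 1 p.1.2.val)) h
  rw [pol_coeff, pol_coeff, (exp_eq _ _).1, (exp_eq _ _).2, co_of_le _ p.2, co_of_le _ p.2] at h1
  exact h1

theorem lrg (n : ℕ) (hn : 4 ≤ n) : ∃ (E : ℕ) (C : ℝ), 0 ≤ C ∧ ∀ H : ℕ, 2 ≤ H → ∀ S : Finset (Ix n → ℤ),
    (∀ c ∈ S, (∀ p, |c p| ≤ (H : ℤ)) ∧ Ir n (co c) ∧ ¬ Sp n (co c) ∧ Sm (pol c) ∧
      ∃ x y : ℤ, ev n (co c) x y = 0 ∧ (H : ℤ) ^ E < max |x| |y|) →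
    (S.card : ℝ) ≤ C * (2 * (H : ℝ) + 1) ^ (Fintype.card (Ix n) - 1) := by
  classical
  obtain ⟨E, hE⟩ := H12.ON.family n hn
  refine ⟨E, n, by positivity, fun H hH S hS => ?_⟩
  set J : Finset (Ix n) := Finset.univ.filter fun p => p.1.1.val + p.1.2.val ≤ n - 2 with hJ
  have hJ1 : 1 ≤ J.card := by
    rw [Nat.one_le_iff_ne_zero, Finset.card_ne_zero]
    exact ⟨ix 0 0 (by omega), by simp [hJ, ix]⟩
  have hfib := fib J H n S (fun c hc => (hS c hc).1) (by
    intro c hc T hT
    -- the pairs
    have hz : ∀ d ∈ T, ∃ P : Fin 2 → ℤ, (pol d, P) ∈ {p : MvPolynomial (Fin 2) ℤ × (Fin 2 → ℤ) |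
        (p.1 - pol c).totalDegree ≤ n - 2 ∧ H12.ON.Smooth p.1 ∧
        eval p.2 p.1 = 0 ∧ ∃ H : ℕ, 2 ≤ H ∧ (∀ m, |p.1.coeff m| ≤ (H : ℤ)) ∧
          ∃ i, (H : ℤ) ^ E < |p.2 i|} := by
      intro d hd
      obtain ⟨hdS, hdJ⟩ := hT d hd
      obtain ⟨h1, h2, h3, h4, x, y, h5, h6⟩ := hS d hdS
      refine ⟨![x, y], ?_, h4, ?_, H, hH, ?_, ?_⟩
      · show (pol d - pol c).totalDegree ≤ n - 2
        unfold totalDegree
        refine Finset.sup_le fun m hm => ?_
        rw [mem_support_iff, coeff_sub, pol_coeff, pol_coeff] at hm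
        have h7 : (m.sum fun _ e => e) = m 0 + m 1 := by
          rw [Finsupp.sum_fintype _ _ (by simp), Fin.sum_univ_two]
        rw [h7]
        by_contra h8
        apply hm
        by_cases h9 : m 0 + m 1 ≤ n
        · rw [co_of_le _ h9, co_of_le _ h9, hdJ (ix (m 0) (m 1) h9), sub_self]
          intro h10
          rw [hJ, Finset.mem_filter] at h10
          exact h8 h10.2
        · unfold co
          rw [dif_neg h9, dif_neg h9, sub_self]
      · rw [pol_eval]
        exact h5
      · intro m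
        show |(pol d).coeff m| ≤ (H : ℤ)
        rw [pol_coeff]
        unfold co
        split
        · exact h1 _
        · simp
      · rcases lt_max_iff.1 h6 with h7 | h7
        · exact ⟨0, h7⟩
        · exact ⟨1, h7⟩
    choose! P hP using hz
    have h1 := hE (pol c) (pol_deg c) (hom_irr n (by omega) c (hS c hc).2.1) (by
      intro w hw
      exact (hS c hc).2.2.1 (sp_of n (by omega) c w hw))
    have h2 : ((T.image fun d => (pol d, P d) : Finset _) : Set (MvPolynomial (Fin 2) ℤ × (Fin 2 → ℤ))).encard ≤ n := by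
      refine le_trans (Set.encard_le_encard ?_) h1
      intro q hq
      rw [Finset.mem_coe, Finset.mem_image] at hq
      obtain ⟨d, hd, rfl⟩ := hq
      exact hP d hd
    rw [Set.encard_coe_eq_coe_finsetCard, Finset.card_image_of_injOn] at h2
    · exact_mod_cast h2
    · intro a _ b _ hab
      exact pol_inj (Prod.mk.inj hab).1)
  calc (S.card : ℝ) ≤ ((n * (2 * H + 1) ^ (Fintype.card (Ix n) - J.card) : ℕ) : ℝ) := by exact_mod_cast hfib
    _ = n * (2 * (H : ℝ) + 1) ^ (Fintype.card (Ix n) - J.card) := by push_cast; ring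
    _ ≤ n * (2 * (H : ℝ) + 1) ^ (Fintype.card (Ix n) - 1) := by
        refine mul_le_mul_of_nonneg_left ?_ (by positivity)
        refine pow_le_pow_right₀ ?_ (by omega)
        have : (0 : ℝ) ≤ H := by positivity
        linarith

end Pool.Agent.H8.AA
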