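import Pool.Agent.H8.AA.Box
import Pool.Agent.H72.ES.RedCount

/-! # [H8 AA RED] Few vectors with reducible form of degree `n`

`¬ Ir`: `co c 0 n = 0` (`fib` with `J = {ix 0 n}`, `M = 1`) or `vecP` of the vector `j ↦ co c (n-j) j` is reducible with last coordinate `≠ 0`:
`fib` with `J` = the `n + 1` indices `ix (n-j) j`, `M = ⌊C (2H+1)^n⌋` by `H72.ES.red_count`. -/

namespace Pool.Agent.H8.AA

open Finset Polynomial

/-- the index of `x^(n-j) y^j` -/
private def tix {n : ℕ} (j : Fin (n + 1)) : Ix n := ix (n - j.val) j.val (by have := j.2; omega)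

private theorem tix_inj {n : ℕ} : Function.Injective (tix (n := n)) := by
  intro i j h
  have h1 : (tix i).1.2.val = (tix j).1.2.val := by rw [h]
  exact Fin.ext h1

private theorem vecP_eq {n : ℕ} (c : Ix n → ℤ) :
    Pool.Agent.H72.ES.vecP (fun j => c (tix j)) = (fm (co c) n).map (Int.castRingHom ℚ) := by
  unfold Pool.Agent.H72.ES.vecP fm
  rw [Polynomial.map_sum, Finset.sum_range]
  refine Finset.sum_congr rfl fun j _ => ?_
  have hj := j.2
  rw [Polynomial.map_monomial, ← C_mul_X_pow_eq_monomial, co_of_le c (show n - j.val + j.val ≤ n by omega)]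
  rfl

theorem red (n : ℕ) (hn : 3 ≤ n) : ∃ C : ℝ, 0 ≤ C ∧ ∀ H : ℕ, 1 ≤ H → ∀ S : Finset (Ix n → ℤ),
    (∀ c ∈ S, (∀ p, |c p| ≤ (H : ℤ)) ∧ ¬ Ir n (co c)) →
    (S.card : ℝ) ≤ C * (2 * (H : ℝ) + 1) ^ (Fintype.card (Ix n) - 1) := by
  classical
  obtain ⟨C, hC, hred⟩ := Pool.Agent.H72.ES.red_count n hn
  refine ⟨C + 1, by linarith, fun H hH S hS => ?_⟩
  set J : Finset (Ix n) := Finset.univ.image tix with hJ
  have hJc : J.card = n + 1 := by
    rw [hJ, Finset.card_image_of_injective _ tix_inj]
    simp
  have hJle : n + 1 ≤ Fintype.card (Ix n) := by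
    have := Finset.card_le_univ J
    omega
  have hB : (0 : ℝ) ≤ 2 * (H : ℝ) + 1 := by positivity
  -- vectors with vanishing last coordinate
  have hA1 : ((S.filter fun c => co c 0 n = 0).card : ℝ) ≤ (2 * (H : ℝ) + 1) ^ (Fintype.card (Ix n) - 1) := by
    have h1 := fib {ix (n := n) 0 n (by omega)} H 1 (S.filter fun c => co c 0 n = 0)
      (fun c hc i => (hS c (Finset.mem_filter.1 hc).1).1 i) (by
        intro c _ T hT
        rw [Finset.card_le_one]
        intro a ha b hb
        have ha' := hT a ha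
        have hb' := hT b hb
        funext p
        by_cases hp : p = ix (n := n) 0 n (by omega)
        · have e1 := (Finset.mem_filter.1 ha'.1).2
          have e2 := (Finset.mem_filter.1 hb'.1).2
          rw [co_of_le _ (show 0 + n ≤ n by omega)] at e1 e2
          rw [hp, e1, e2]
        · rw [ha'.2 p (by simpa using hp), hb'.2 p (by simpa using hp)])
    rw [Finset.card_singleton, one_mul] at h1
    exact_mod_cast h1
  -- reducible vectors
  have hA2 : ((S.filter fun c => co c 0 n ≠ 0).card : ℝ) ≤ C * (2 * (H : ℝ) + 1) ^ (Fintype.card (Ix n) - 1) := by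
    have h1 := fib J H ⌊C * (2 * (H : ℝ) + 1) ^ n⌋₊ (S.filter fun c => co c 0 n ≠ 0)
      (fun c hc i => (hS c (Finset.mem_filter.1 hc).1).1 i) (by
        intro c _ T hT
        have hinj : Set.InjOn (fun (c' : Ix n → ℤ) (j : Fin (n + 1)) => c' (tix j)) T := by
          intro a ha b hb hab
          have ha' := hT a ha
          have hb' := hT b hb
          funext p
          by_cases hp : p ∈ J
          · obtain ⟨j, _, rfl⟩ := Finset.mem_image.1 hp
            exact congrFun hab j
          · rw [ha'.2 p hp, hb'.2 p hp]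
        rw [← Finset.card_image_of_injOn hinj]
        apply Nat.le_floor
        apply hred H hH
        intro v hv
        obtain ⟨c', hc', rfl⟩ := Finset.mem_image.1 hv
        have h2 := Finset.mem_filter.1 (hT c' hc').1
        have h3 := hS c' h2.1
        refine ⟨fun i => h3.1 _, ?_, ?_⟩
        · have h4 := h2.2
          rw [co_of_le _ (show 0 + n ≤ n by omega)] at h4
          have h5 : tix (Fin.last n) = ix (n := n) 0 n (by omega) := by
            unfold tix ix
            apply Subtype.ext
            simp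
          simp only [h5]
          exact h4
        · intro h4
          rw [vecP_eq] at h4
          exact h3.2 ⟨h2.2, h4⟩)
    rw [hJc] at h1
    calc ((S.filter fun c => co c 0 n ≠ 0).card : ℝ)
        ≤ (⌊C * (2 * (H : ℝ) + 1) ^ n⌋₊ : ℝ) * (2 * (H : ℝ) + 1) ^ (Fintype.card (Ix n) - (n + 1)) := by
          exact_mod_cast h1
      _ ≤ (C * (2 * (H : ℝ) + 1) ^ n) * (2 * (H : ℝ) + 1) ^ (Fintype.card (Ix n) - (n + 1)) := by
          apply mul_le_mul_of_nonneg_right _ (by positivity)
          exact Nat.floor_le (by positivity)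
      _ = C * (2 * (H : ℝ) + 1) ^ (Fintype.card (Ix n) - 1) := by
          rw [mul_assoc, ← pow_add]
          congr 2
          omega
  have hsplit := Finset.card_filter_add_card_filter_not (s := S) (fun c => co c 0 n = 0)
  calc (S.card : ℝ) = ((S.filter fun c => co c 0 n = 0).card : ℝ) + ((S.filter fun c => co c 0 n ≠ 0).card : ℝ) := by
        exact_mod_cast hsplit.symm
    _ ≤ (2 * (H : ℝ) + 1) ^ (Fintype.card (Ix n) - 1) + C * (2 * (H : ℝ) + 1) ^ (Fintype.card (Ix n) - 1) :=
        add_le_add hA1 hA2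
    _ = (C + 1) * (2 * (H : ℝ) + 1) ^ (Fintype.card (Ix n) - 1) := by ring

end Pool.Agent.H8.AA
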