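import Pool.Agent.H8.AA.Box

/-! # [H8 AA SML] Few polynomials with an integer zero `|P| ≤ K H²`

Fix `P = (x,y)`. `x = y = 0`: the coordinate `ix 0 0` is zero: `fib` with `J = {ix 0 0}`, `M = 1`. Otherwise let `|x| ≥ |y|`, `X = |x| ≥ 1` (the other case
by symmetry). `fib` with `J = {ix 0 0, ix 1 0, .., ix n 0}` (`n + 1` coordinates): given the others, `c_0 + c_1 x + .. + c_n x^n = -R`; `c_0` is in
one class modulo `x` in `[-H,H]`: `≤ 2H/X + 1` choices, then `c_1` the same, .., `c_(n-1)`, and `c_n` is determined: `M ≤ (2H/X + 1)^n`.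
`X ≤ H`: `M ≤ (3H/X)^n`; `X ≥ H`: `M ≤ 3^n`. Number of `P` with `|P| = X`: `≤ 8 X + 1 ≤ 9 X`. Sum: `X ≤ H`: `9 · 3^n H^n ∑ X^(1-n) ≤ C H^n` (`n ≥ 3`);
`H ≤ X ≤ K H²`: `≤ 9 · 3^n (K H² + 1)² ≤ C H^4 ≤ C H^n` (`n ≥ 4`). Times `(2H+1)^(|Ix n| - n - 1)`. -/

namespace Pool.Agent.H8.AA

open Finset

/-- integers of `[-H,H]` in one class modulo `X` -/
private theorem cls_card (X H : ℕ) (hX : 1 ≤ X) (r : ℤ) (V : Finset ℤ)
    (hV : ∀ v ∈ V, |v| ≤ (H : ℤ) ∧ (X : ℤ) ∣ v - r) : V.card ≤ 2 * H / X + 1 := by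
  have hX0 : (0 : ℤ) < X := by exact_mod_cast hX
  rw [← card_range (2 * H / X + 1)]
  refine card_le_card_of_injOn (fun v => ((v + H) / X).toNat) ?_ ?_
  · intro v hv
    have h1 := abs_le.1 (hV v hv).1
    have h2 : (0 : ℤ) ≤ (v + H) / X := Int.ediv_nonneg (by omega) hX0.le
    have h3 : (v + H) / X ≤ (2 * H : ℤ) / X := Int.ediv_le_ediv hX0 (by omega)
    have h4 : ((2 * H / X : ℕ) : ℤ) = (2 * H : ℤ) / X := by push_cast; rfl
    simp only [coe_range, Set.mem_Iio]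
    rw [Int.toNat_lt h2]
    push_cast
    omega
  · intro v hv w hw h
    have h1 := abs_le.1 (hV v hv).1
    have h2 := abs_le.1 (hV w hw).1
    have h3 : (0 : ℤ) ≤ (v + H) / X := Int.ediv_nonneg (by omega) hX0.le
    have h4 : (0 : ℤ) ≤ (w + H) / X := Int.ediv_nonneg (by omega) hX0.le
    have h5 : (v + H) / X = (w + H) / X := by
      have h6 : (((v + H) / X).toNat : ℤ) = (((w + H) / X).toNat : ℤ) := by exact_mod_cast h
      rwa [Int.toNat_of_nonneg h3, Int.toNat_of_nonneg h4] at h6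
    have h7 : (v + H) % X = (w + H) % X := by
      have h8 : (X : ℤ) ∣ (w + H) - (v + H) := by
        have h9 := dvd_sub (hV w hw).2 (hV v hv).2
        have h10 : w - r - (v - r) = (w + H) - (v + H) := by ring
        rwa [h10] at h9
      exact Int.modEq_iff_dvd.2 h8
    have h11 := Int.emod_add_mul_ediv (v + H) X
    have h12 := Int.emod_add_mul_ediv (w + H) X
    rw [h5, h7] at h11
    omega

/-- digits -/
private theorem dig (x : ℤ) (hx : x ≠ 0) (H : ℕ) : ∀ (m : ℕ) (R : ℤ) (T : Finset (Fin (m + 1) → ℤ)),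
    (∀ a ∈ T, (∀ i, |a i| ≤ (H : ℤ)) ∧ ∑ i, a i * x ^ (i : ℕ) = R) →
    T.card ≤ (2 * H / x.natAbs + 1) ^ m
  | 0, R, T, h => by
    rw [pow_zero, card_le_one]
    intro a ha b hb
    have h1 := (h a ha).2
    have h2 := (h b hb).2
    rw [Fin.sum_univ_one] at h1 h2
    funext i
    have hi : i = 0 := Fin.ext (by have := i.2; simp only [Fin.val_zero]; omega)
    rw [hi]
    simp only [Fin.isValue, Fin.val_zero, pow_zero, mul_one] at h1 h2
    rw [h1, h2]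
  | m + 1, R, T, h => by
    classical
    have hX : 1 ≤ x.natAbs := Int.natAbs_pos.2 hx
    rw [card_eq_sum_card_image (fun a : Fin (m + 1 + 1) → ℤ => a 0) T]
    have hV : (T.image (fun a : Fin (m + 1 + 1) → ℤ => a 0)).card ≤ 2 * H / x.natAbs + 1 := by
      refine cls_card x.natAbs H hX R _ ?_
      intro v hv
      obtain ⟨a, ha, rfl⟩ := mem_image.1 hv
      refine ⟨(h a ha).1 0, ?_⟩
      rw [Int.natAbs_dvd]
      have h1 := (h a ha).2
      rw [Fin.sum_univ_succ] at h1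
      have h2 : ∑ i : Fin (m + 1), a i.succ * x ^ ((i.succ : Fin (m + 1 + 1)) : ℕ) =
          x * ∑ i : Fin (m + 1), a i.succ * x ^ (i : ℕ) := by
        rw [mul_sum]
        refine sum_congr rfl fun i _ => ?_
        rw [Fin.val_succ, pow_succ]
        ring
      rw [h2] at h1
      simp only [Fin.val_zero, pow_zero, mul_one] at h1
      refine ⟨-∑ i : Fin (m + 1), a i.succ * x ^ (i : ℕ), ?_⟩
      linarith
    have hF : ∀ v ∈ T.image (fun a : Fin (m + 1 + 1) → ℤ => a 0),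
        (T.filter fun a => a 0 = v).card ≤ (2 * H / x.natAbs + 1) ^ m := by
      intro v _
      have hinj : Set.InjOn (fun (a : Fin (m + 1 + 1) → ℤ) (i : Fin (m + 1)) => a i.succ)
          (T.filter fun a => a 0 = v) := by
        intro a ha b hb hab
        have ha0 := (mem_filter.1 (mem_coe.1 ha)).2
        have hb0 := (mem_filter.1 (mem_coe.1 hb)).2
        funext i
        refine Fin.cases ?_ (fun j => ?_) i
        · rw [ha0, hb0]
        · exact congrFun hab j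
      rw [← card_image_of_injOn hinj]
      refine dig x hx H m ((R - v) / x) _ ?_
      intro a' ha'
      obtain ⟨a, ha, rfl⟩ := mem_image.1 ha'
      have ha1 := mem_filter.1 ha
      refine ⟨fun i => (h a ha1.1).1 i.succ, ?_⟩
      have h1 := (h a ha1.1).2
      rw [Fin.sum_univ_succ] at h1
      have h2 : ∑ i : Fin (m + 1), a i.succ * x ^ ((i.succ : Fin (m + 1 + 1)) : ℕ) =
          x * ∑ i : Fin (m + 1), a i.succ * x ^ (i : ℕ) := by
        rw [mul_sum]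
        refine sum_congr rfl fun i _ => ?_
        rw [Fin.val_succ, pow_succ]
        ring
      rw [h2] at h1
      simp only [Fin.val_zero, pow_zero, mul_one] at h1
      rw [ha1.2] at h1
      have h3 : R - v = x * ∑ i : Fin (m + 1), a i.succ * x ^ (i : ℕ) := by linarith
      rw [h3, Int.mul_ediv_cancel_left _ hx]
    calc ∑ v ∈ T.image (fun a : Fin (m + 1 + 1) → ℤ => a 0), (T.filter fun a => a 0 = v).card
        ≤ ∑ _v ∈ T.image (fun a : Fin (m + 1 + 1) → ℤ => a 0), (2 * H / x.natAbs + 1) ^ m :=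
          sum_le_sum hF
      _ = (T.image (fun a : Fin (m + 1 + 1) → ℤ => a 0)).card * (2 * H / x.natAbs + 1) ^ m := by
          rw [sum_const, smul_eq_mul]
      _ ≤ (2 * H / x.natAbs + 1) * (2 * H / x.natAbs + 1) ^ m := Nat.mul_le_mul_right _ hV
      _ = (2 * H / x.natAbs + 1) ^ (m + 1) := by rw [pow_succ]; ring

private theorem cnt {n H : ℕ} (z : ℤ) (hz : z ≠ 0) (g : Fin (n + 1) → Ix n) (hg : Function.Injective g)
    (Φ : (Ix n → ℤ) → ℤ)
    (hΦ : ∀ c c' : Ix n → ℤ, (∀ i, i ∉ univ.image g → c i = c' i) →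
      Φ c - ∑ i, c (g i) * z ^ (i : ℕ) = Φ c' - ∑ i, c' (g i) * z ^ (i : ℕ))
    (S : Finset (Ix n → ℤ)) (hS : ∀ c ∈ S, (∀ p, |c p| ≤ (H : ℤ)) ∧ Φ c = 0) :
    S.card ≤ (2 * H / z.natAbs + 1) ^ n * (2 * H + 1) ^ (Fintype.card (Ix n) - (n + 1)) := by
  classical
  have hJ : (univ.image g).card = n + 1 := by
    rw [card_image_of_injective _ hg, card_univ, Fintype.card_fin]
  have hfib := fib (univ.image g) H ((2 * H / z.natAbs + 1) ^ n) S (fun c hc => (hS c hc).1) ?_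
  · rw [hJ] at hfib
    exact hfib
  intro c hc T hT
  have hinj : Set.InjOn (fun (c' : Ix n → ℤ) (i : Fin (n + 1)) => c' (g i)) T := by
    intro a ha b hb hab
    funext i
    by_cases hi : i ∈ univ.image g
    · obtain ⟨j, _, rfl⟩ := mem_image.1 hi
      exact congrFun hab j
    · rw [(hT a ha).2 i hi, (hT b hb).2 i hi]
  rw [← card_image_of_injOn hinj]
  refine dig z hz H n (∑ i, c (g i) * z ^ (i : ℕ)) _ ?_
  intro a' ha'
  obtain ⟨c', hc', rfl⟩ := mem_image.1 ha'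
  obtain ⟨h1, h2⟩ := hT c' hc'
  refine ⟨fun i => (hS c' h1).1 (g i), ?_⟩
  have h3 := hΦ c' c h2
  rw [(hS c' h1).2, (hS c hc).2] at h3
  linarith

private theorem hx_part (n : ℕ) (x y : ℤ) (c c' : Ix n → ℤ)
    (h : ∀ i, i ∉ univ.image (fun i : Fin (n + 1) => ix (n := n) (i : ℕ) 0 (by omega)) → c i = c' i) :
    ev n (co c) x y - ∑ i : Fin (n + 1), c (ix (i : ℕ) 0 (by omega)) * x ^ (i : ℕ) =
      ev n (co c') x y - ∑ i : Fin (n + 1), c' (ix (i : ℕ) 0 (by omega)) * x ^ (i : ℕ) := by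
  have key : ∀ d : Ix n → ℤ, ev n (co d) x y -
      ∑ i : Fin (n + 1), d (ix (i : ℕ) 0 (by omega)) * x ^ (i : ℕ) =
      ∑ k ∈ range (n + 1), ∑ j ∈ range k, co d (k - (j + 1)) (j + 1) * (x ^ (k - (j + 1)) * y ^ (j + 1)) := by
    intro d
    have h1 : ∑ i : Fin (n + 1), d (ix (i : ℕ) 0 (by omega)) * x ^ (i : ℕ) =
        ∑ k ∈ range (n + 1), co d k 0 * x ^ k := by
      rw [← Fin.sum_univ_eq_sum_range (fun k => co d k 0 * x ^ k)]
      refine sum_congr rfl fun i _ => ?_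
      rw [co_of_le d (by omega : (i : ℕ) + 0 ≤ n)]
    rw [h1]
    unfold ev
    rw [← sum_sub_distrib]
    refine sum_congr rfl fun k _ => ?_
    rw [sum_range_succ']
    simp
  rw [key, key]
  refine sum_congr rfl fun k hk => sum_congr rfl fun j hj => ?_
  have hk' := mem_range.1 hk
  have hj' := mem_range.1 hj
  have hle : k - (j + 1) + (j + 1) ≤ n := by omega
  rw [co_of_le c hle, co_of_le c' hle, h]
  intro hm
  obtain ⟨i, _, hi⟩ := mem_image.1 hm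
  have h2 := congrArg (fun q : Ix n => q.1.2.val) hi
  simp [ix] at h2

private theorem hy_part (n : ℕ) (x y : ℤ) (c c' : Ix n → ℤ)
    (h : ∀ i, i ∉ univ.image (fun i : Fin (n + 1) => ix (n := n) 0 (i : ℕ) (by omega)) → c i = c' i) :
    ev n (co c) x y - ∑ i : Fin (n + 1), c (ix 0 (i : ℕ) (by omega)) * y ^ (i : ℕ) =
      ev n (co c') x y - ∑ i : Fin (n + 1), c' (ix 0 (i : ℕ) (by omega)) * y ^ (i : ℕ) := by
  have key : ∀ d : Ix n → ℤ, ev n (co d) x y -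
      ∑ i : Fin (n + 1), d (ix 0 (i : ℕ) (by omega)) * y ^ (i : ℕ) =
      ∑ k ∈ range (n + 1), ∑ j ∈ range k, co d (k - j) j * (x ^ (k - j) * y ^ j) := by
    intro d
    have h1 : ∑ i : Fin (n + 1), d (ix 0 (i : ℕ) (by omega)) * y ^ (i : ℕ) =
        ∑ k ∈ range (n + 1), co d 0 k * y ^ k := by
      rw [← Fin.sum_univ_eq_sum_range (fun k => co d 0 k * y ^ k)]
      refine sum_congr rfl fun i _ => ?_
      rw [co_of_le d (by omega : 0 + (i : ℕ) ≤ n)]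
    rw [h1]
    unfold ev
    rw [← sum_sub_distrib]
    refine sum_congr rfl fun k _ => ?_
    rw [sum_range_succ]
    simp
  rw [key, key]
  refine sum_congr rfl fun k hk => sum_congr rfl fun j hj => ?_
  have hk' := mem_range.1 hk
  have hj' := mem_range.1 hj
  have hle : k - j + j ≤ n := by omega
  rw [co_of_le c hle, co_of_le c' hle, h]
  intro hm
  obtain ⟨i, _, hi⟩ := mem_image.1 hm
  have h2 := congrArg (fun q : Ix n => q.1.1.val) hi
  simp [ix] at h2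
  omega

private theorem cardx (n H : ℕ) (x y : ℤ) (hx : x ≠ 0) (S : Finset (Ix n → ℤ))
    (hS : ∀ c ∈ S, (∀ p, |c p| ≤ (H : ℤ)) ∧ ev n (co c) x y = 0) :
    S.card ≤ (2 * H / x.natAbs + 1) ^ n * (2 * H + 1) ^ (Fintype.card (Ix n) - (n + 1)) := by
  refine cnt x hx (fun i : Fin (n + 1) => ix (n := n) (i : ℕ) 0 (by omega)) ?_
    (fun c => ev n (co c) x y) (fun c c' h => hx_part n x y c c' h) S hS
  intro i j hij
  have h2 := congrArg (fun q : Ix n => q.1.1.val) hij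
  exact Fin.ext h2

private theorem cardy (n H : ℕ) (x y : ℤ) (hy : y ≠ 0) (S : Finset (Ix n → ℤ))
    (hS : ∀ c ∈ S, (∀ p, |c p| ≤ (H : ℤ)) ∧ ev n (co c) x y = 0) :
    S.card ≤ (2 * H / y.natAbs + 1) ^ n * (2 * H + 1) ^ (Fintype.card (Ix n) - (n + 1)) := by
  refine cnt y hy (fun i : Fin (n + 1) => ix (n := n) 0 (i : ℕ) (by omega)) ?_
    (fun c => ev n (co c) x y) (fun c c' h => hy_part n x y c c' h) S hS
  intro i j hij
  have h2 := congrArg (fun q : Ix n => q.1.2.val) hij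
  exact Fin.ext h2

private theorem card0 (n H : ℕ) (S : Finset (Ix n → ℤ))
    (hS : ∀ c ∈ S, (∀ p, |c p| ≤ (H : ℤ)) ∧ ev n (co c) 0 0 = 0) :
    S.card ≤ (2 * H + 1) ^ (Fintype.card (Ix n) - 1) := by
  classical
  have h00 : ∀ c : Ix n → ℤ, ev n (co c) 0 0 = c (ix 0 0 (by omega)) := by
    intro c
    have h2 : ∀ d : Ix n → ℤ, ev n (co d) 0 0 = d (ix 0 0 (by omega)) := by
      intro d
      unfold ev
      rw [sum_range_succ']
      have h3 : ∑ k ∈ range n, ∑ j ∈ range (k + 1 + 1),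
          co d (k + 1 - j) j * ((0 : ℤ) ^ (k + 1 - j) * 0 ^ j) = 0 := by
        refine sum_eq_zero fun k _ => sum_eq_zero fun j hj => ?_
        by_cases hj0 : j = 0
        · subst hj0
          simp
        · rw [zero_pow hj0]
          simp
      rw [h3]
      simp [co_of_le d (by omega : 0 + 0 ≤ n)]
    exact h2 c
  have h := fib ({ix 0 0 (by omega)} : Finset (Ix n)) H 1 S (fun c hc => (hS c hc).1) ?_
  · rw [card_singleton, one_mul] at h
    exact h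
  · intro c hc T hT
    rw [card_le_one]
    intro a ha b hb
    funext i
    by_cases hi : i = ix 0 0 (by omega)
    · rw [hi, ← h00 a, ← h00 b, (hS a (hT a ha).1).2, (hS b (hT b hb).1).2]
    · rw [(hT a ha).2 i (by simpa using hi), (hT b hb).2 i (by simpa using hi)]

private theorem sum_inv_sq (R : ℕ) : ∑ X ∈ range R, (1 : ℝ) / ((X : ℝ) + 1) ^ 2 ≤ 2 - 2 / ((R : ℝ) + 1) := by
  induction R with
  | zero => simp
  | succ R ih =>
    rw [sum_range_succ]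
    have h0 : (0 : ℝ) < (R : ℝ) + 1 := by positivity
    have h1 : (0 : ℝ) < (R : ℝ) + 2 := by positivity
    have h2 : (1 : ℝ) / ((R : ℝ) + 1) ^ 2 ≤ 2 / ((R : ℝ) + 1) - 2 / ((R : ℝ) + 2) := by
      rw [div_sub_div _ _ h0.ne' h1.ne', div_le_div_iff₀ (by positivity) (by positivity)]
      nlinarith [mul_pos h0 h1, (Nat.cast_nonneg R : (0 : ℝ) ≤ R)]
    have h3 : ((R + 1 : ℕ) : ℝ) + 1 = (R : ℝ) + 2 := by push_cast; ring
    rw [h3]
    linarith

private theorem sum_lin (R : ℕ) : ∑ X ∈ range R, ((X : ℝ) + 1) ≤ (R : ℝ) ^ 2 := by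
  have h : ∀ X ∈ range R, ((X : ℝ) + 1) ≤ (R : ℝ) := by
    intro X hX
    have := mem_range.1 hX
    exact_mod_cast this
  calc ∑ X ∈ range R, ((X : ℝ) + 1) ≤ ∑ _X ∈ range R, (R : ℝ) := sum_le_sum h
    _ = (R : ℝ) ^ 2 := by rw [sum_const, card_range, nsmul_eq_mul, sq]

private theorem term (n : ℕ) (hn : 4 ≤ n) (H X : ℕ) :
    (2 * (X : ℝ) + 3) * (((2 * H / (X + 1) + 1 : ℕ) : ℝ)) ^ n ≤
      3 ^ (n + 1) * (H : ℝ) ^ n * (1 / ((X : ℝ) + 1) ^ 2) + 3 * 2 ^ n * ((X : ℝ) + 1) := by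
  have hY : (1 : ℝ) ≤ (X : ℝ) + 1 := by
    have := (Nat.cast_nonneg X : (0 : ℝ) ≤ X)
    linarith
  have hY0 : (0 : ℝ) < (X : ℝ) + 1 := by linarith
  have h3 : 2 * (X : ℝ) + 3 ≤ 3 * ((X : ℝ) + 1) := by
    have := (Nat.cast_nonneg X : (0 : ℝ) ≤ X)
    linarith
  by_cases hc : X + 1 ≤ H
  · have hc' : (X : ℝ) + 1 ≤ (H : ℝ) := by exact_mod_cast hc
    have h4 : ((2 * H / (X + 1) + 1 : ℕ) : ℝ) ≤ 3 * H / ((X : ℝ) + 1) := by
      have h5 : ((2 * H / (X + 1) : ℕ) : ℝ) ≤ ((2 * H : ℕ) : ℝ) / ((X + 1 : ℕ) : ℝ) := Nat.cast_div_le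
      have h6 : (1 : ℝ) ≤ H / ((X : ℝ) + 1) := by
        rw [le_div_iff₀ hY0]
        linarith
      push_cast at h5 ⊢
      have h7 : 3 * (H : ℝ) / ((X : ℝ) + 1) = 2 * H / ((X : ℝ) + 1) + H / ((X : ℝ) + 1) := by ring
      rw [h7]
      linarith
    have h8 : (((2 * H / (X + 1) + 1 : ℕ) : ℝ)) ^ n ≤ (3 * H / ((X : ℝ) + 1)) ^ n :=
      pow_le_pow_left₀ (Nat.cast_nonneg _) h4 n
    have h9 : (3 * ((X : ℝ) + 1)) * (3 * H / ((X : ℝ) + 1)) ^ n ≤
        3 ^ (n + 1) * (H : ℝ) ^ n * (1 / ((X : ℝ) + 1) ^ 2) := by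
      have h10 : (1 : ℝ) / ((X : ℝ) + 1) ^ n * ((X : ℝ) + 1) ≤ 1 / ((X : ℝ) + 1) ^ 2 := by
        rw [div_mul_eq_mul_div, one_mul, div_le_div_iff₀ (by positivity) (by positivity), one_mul,
          ← pow_succ']
        exact pow_le_pow_right₀ hY (by omega)
      have h11 : (3 * ((X : ℝ) + 1)) * (3 * H / ((X : ℝ) + 1)) ^ n =
          3 ^ (n + 1) * (H : ℝ) ^ n * (1 / ((X : ℝ) + 1) ^ n * ((X : ℝ) + 1)) := by
        rw [div_pow, mul_pow]
        ring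
      rw [h11]
      exact mul_le_mul_of_nonneg_left h10 (by positivity)
    have h12 : (2 * (X : ℝ) + 3) * (((2 * H / (X + 1) + 1 : ℕ) : ℝ)) ^ n ≤
        (3 * ((X : ℝ) + 1)) * (3 * H / ((X : ℝ) + 1)) ^ n := by
      refine mul_le_mul h3 h8 (by positivity) (by positivity)
    have h13 : (0 : ℝ) ≤ 3 * 2 ^ n * ((X : ℝ) + 1) := by positivity
    linarith
  · have h4 : 2 * H / (X + 1) < 2 := by
      rw [Nat.div_lt_iff_lt_mul (by omega)]
      omega
    have h5 : ((2 * H / (X + 1) + 1 : ℕ) : ℝ) ≤ 2 := by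
      have : 2 * H / (X + 1) + 1 ≤ 2 := by omega
      exact_mod_cast this
    have h8 : (((2 * H / (X + 1) + 1 : ℕ) : ℝ)) ^ n ≤ 2 ^ n :=
      pow_le_pow_left₀ (Nat.cast_nonneg _) h5 n
    have h12 : (2 * (X : ℝ) + 3) * (((2 * H / (X + 1) + 1 : ℕ) : ℝ)) ^ n ≤
        (3 * ((X : ℝ) + 1)) * 2 ^ n := by
      refine mul_le_mul h3 h8 (by positivity) (by positivity)
    have h13 : (0 : ℝ) ≤ 3 ^ (n + 1) * (H : ℝ) ^ n * (1 / ((X : ℝ) + 1) ^ 2) := by positivity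
    have h14 : (3 * ((X : ℝ) + 1)) * 2 ^ n = 3 * 2 ^ n * ((X : ℝ) + 1) := by ring
    linarith

private theorem count_le (n H R : ℕ) (S : Finset (Ix n → ℤ))
    (hS : ∀ c ∈ S, (∀ p, |c p| ≤ (H : ℤ)) ∧ ∃ x y : ℤ, x.natAbs ≤ R ∧ y.natAbs ≤ R ∧ ev n (co c) x y = 0) :
    S.card ≤ (2 * H + 1) ^ (Fintype.card (Ix n) - 1) + ∑ X ∈ range R, (2 * X + 3) *
      (4 * ((2 * H / (X + 1) + 1) ^ n * (2 * H + 1) ^ (Fintype.card (Ix n) - (n + 1)))) := by
  classical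
  let Z : ℤ → ℤ → Finset (Ix n → ℤ) := fun x y => S.filter (fun c => ev n (co c) x y = 0)
  have hZ : ∀ x y, ∀ c ∈ Z x y, (∀ p, |c p| ≤ (H : ℤ)) ∧ ev n (co c) x y = 0 := by
    intro x y c hc
    have h1 := mem_filter.1 hc
    exact ⟨(hS c h1.1).1, h1.2⟩
  let U : ℕ → Finset (Ix n → ℤ) := fun X => (Icc (-((X : ℤ) + 1)) ((X : ℤ) + 1)).biUnion
    (fun y => (Z ((X : ℤ) + 1) y ∪ Z (-((X : ℤ) + 1)) y) ∪ (Z y ((X : ℤ) + 1) ∪ Z y (-((X : ℤ) + 1))))
  have hsub : S ⊆ Z 0 0 ∪ (range R).biUnion U := by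
    intro c hc
    obtain ⟨x, y, hx, hy, h0⟩ := (hS c hc).2
    have hmem : ∀ x y : ℤ, ev n (co c) x y = 0 → c ∈ Z x y := fun x y h => mem_filter.2 ⟨hc, h⟩
    rw [mem_union]
    by_cases hxy : x = 0 ∧ y = 0
    · left
      obtain ⟨rfl, rfl⟩ := hxy
      exact hmem _ _ h0
    · right
      rw [mem_biUnion]
      by_cases hle : y.natAbs ≤ x.natAbs
      · refine ⟨x.natAbs - 1, mem_range.2 (by omega), ?_⟩
        rw [mem_biUnion]
        refine ⟨y, mem_Icc.2 ⟨by omega, by omega⟩, ?_⟩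
        rw [mem_union, mem_union]
        left
        rcases le_or_gt 0 x with h | h
        · left
          have h1 : ((x.natAbs - 1 : ℕ) : ℤ) + 1 = x := by omega
          rw [h1]
          exact hmem _ _ h0
        · right
          have h1 : -(((x.natAbs - 1 : ℕ) : ℤ) + 1) = x := by omega
          rw [h1]
          exact hmem _ _ h0
      · refine ⟨y.natAbs - 1, mem_range.2 (by omega), ?_⟩
        rw [mem_biUnion]
        refine ⟨x, mem_Icc.2 ⟨by omega, by omega⟩, ?_⟩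
        rw [mem_union]
        right
        rw [mem_union]
        rcases le_or_gt 0 y with h | h
        · left
          have h1 : ((y.natAbs - 1 : ℕ) : ℤ) + 1 = y := by omega
          rw [h1]
          exact hmem _ _ h0
        · right
          have h1 : -(((y.natAbs - 1 : ℕ) : ℤ) + 1) = y := by omega
          rw [h1]
          exact hmem _ _ h0
  have h0 : (Z 0 0).card ≤ (2 * H + 1) ^ (Fintype.card (Ix n) - 1) := card0 n H _ (hZ 0 0)
  have hU : ∀ X ∈ range R, (U X).card ≤ (2 * X + 3) *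
      (4 * ((2 * H / (X + 1) + 1) ^ n * (2 * H + 1) ^ (Fintype.card (Ix n) - (n + 1)))) := by
    intro X _
    refine card_biUnion_le.trans ?_
    have hcard : (Icc (-((X : ℤ) + 1)) ((X : ℤ) + 1)).card = 2 * X + 3 := by
      rw [Int.card_Icc]
      omega
    rw [← hcard, ← smul_eq_mul, ← sum_const]
    refine sum_le_sum fun y _ => ?_
    have a1 : ((X : ℤ) + 1).natAbs = X + 1 := by omega
    have a2 : (-((X : ℤ) + 1)).natAbs = X + 1 := by omega
    have b1 := cardx n H ((X : ℤ) + 1) y (by omega) _ (hZ _ y)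
    have b2 := cardx n H (-((X : ℤ) + 1)) y (by omega) _ (hZ _ y)
    have b3 := cardy n H y ((X : ℤ) + 1) (by omega) _ (hZ y _)
    have b4 := cardy n H y (-((X : ℤ) + 1)) (by omega) _ (hZ y _)
    rw [a1] at b1 b3
    rw [a2] at b2 b4
    have c1 := card_union_le (Z ((X : ℤ) + 1) y ∪ Z (-((X : ℤ) + 1)) y) (Z y ((X : ℤ) + 1) ∪ Z y (-((X : ℤ) + 1)))
    have c2 := card_union_le (Z ((X : ℤ) + 1) y) (Z (-((X : ℤ) + 1)) y)
    have c3 := card_union_le (Z y ((X : ℤ) + 1)) (Z y (-((X : ℤ) + 1)))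
    omega
  calc S.card ≤ (Z 0 0 ∪ (range R).biUnion U).card := card_le_card hsub
    _ ≤ (Z 0 0).card + ((range R).biUnion U).card := card_union_le _ _
    _ ≤ _ := by
      refine Nat.add_le_add h0 (card_biUnion_le.trans (sum_le_sum hU))

theorem sml (n : ℕ) (hn : 4 ≤ n) (K : ℝ) : ∃ C : ℝ, 0 ≤ C ∧ ∀ H : ℕ, 1 ≤ H → ∀ S : Finset (Ix n → ℤ),
    (∀ c ∈ S, (∀ p, |c p| ≤ (H : ℤ)) ∧ ∃ x y : ℤ, (max |x| |y| : ℤ) ≤ K * (H : ℝ) ^ 2 ∧ ev n (co c) x y = 0) →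
    (S.card : ℝ) ≤ C * (2 * (H : ℝ) + 1) ^ (Fintype.card (Ix n) - 1) := by
  refine ⟨1 + 8 * 3 ^ (n + 1) + 12 * 2 ^ n * K ^ 2, by positivity, ?_⟩
  intro H hH S hS
  set R : ℕ := ⌊K * (H : ℝ) ^ 2⌋₊ with hR
  have hH1 : (1 : ℝ) ≤ H := by exact_mod_cast hH
  have hS' : ∀ c ∈ S, (∀ p, |c p| ≤ (H : ℤ)) ∧
      ∃ x y : ℤ, x.natAbs ≤ R ∧ y.natAbs ≤ R ∧ ev n (co c) x y = 0 := by
    intro c hc
    obtain ⟨h1, x, y, h2, h3⟩ := hS c hc
    refine ⟨h1, x, y, ?_, ?_, h3⟩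
    · refine Nat.le_floor (le_trans ?_ h2)
      rw [Nat.cast_natAbs]
      exact_mod_cast le_max_left |x| |y|
    · refine Nat.le_floor (le_trans ?_ h2)
      rw [Nat.cast_natAbs]
      exact_mod_cast le_max_right |x| |y|
  have hmain := count_le n H R S hS'
  have hmain' : (S.card : ℝ) ≤ (2 * (H : ℝ) + 1) ^ (Fintype.card (Ix n) - 1) + ∑ X ∈ range R, (2 * (X : ℝ) + 3) *
      (4 * ((((2 * H / (X + 1) + 1 : ℕ) : ℝ)) ^ n * (2 * (H : ℝ) + 1) ^ (Fintype.card (Ix n) - (n + 1)))) := by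
    have h1 : (S.card : ℝ) ≤ (((2 * H + 1) ^ (Fintype.card (Ix n) - 1) + ∑ X ∈ range R, (2 * X + 3) *
      (4 * ((2 * H / (X + 1) + 1) ^ n * (2 * H + 1) ^ (Fintype.card (Ix n) - (n + 1)))) : ℕ) : ℝ) := by
      exact_mod_cast hmain
    refine h1.trans (le_of_eq ?_)
    push_cast
    ring
  set W : ℝ := (2 * (H : ℝ) + 1) ^ (Fintype.card (Ix n) - (n + 1)) with hW
  have hW0 : 0 ≤ W := by positivity
  have hRK : (R : ℝ) ^ 2 ≤ K ^ 2 * (H : ℝ) ^ n := by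
    have h1 : (R : ℝ) ≤ |K| * (H : ℝ) ^ 2 := by
      rcases le_or_gt 0 K with hK | hK
      · rw [abs_of_nonneg hK]
        exact Nat.floor_le (by positivity)
      · have h2 : R = 0 := Nat.floor_eq_zero.2 (lt_of_le_of_lt (b := 0) (by nlinarith [sq_nonneg (H : ℝ)]) one_pos)
        rw [h2]
        simp only [Nat.cast_zero]
        positivity
    have h3 : (R : ℝ) ^ 2 ≤ (|K| * (H : ℝ) ^ 2) ^ 2 := pow_le_pow_left₀ (Nat.cast_nonneg _) h1 2
    have h4 : (|K| * (H : ℝ) ^ 2) ^ 2 = K ^ 2 * (H : ℝ) ^ 4 := by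
      rw [mul_pow, sq_abs, ← pow_mul]
    have h5 : (H : ℝ) ^ 4 ≤ (H : ℝ) ^ n := pow_le_pow_right₀ hH1 hn
    rw [h4] at h3
    exact h3.trans (mul_le_mul_of_nonneg_left h5 (sq_nonneg K))
  have hsum : ∑ X ∈ range R, (2 * (X : ℝ) + 3) * (((2 * H / (X + 1) + 1 : ℕ) : ℝ)) ^ n ≤
      3 ^ (n + 1) * (H : ℝ) ^ n * 2 + 3 * 2 ^ n * (K ^ 2 * (H : ℝ) ^ n) := by
    calc ∑ X ∈ range R, (2 * (X : ℝ) + 3) * (((2 * H / (X + 1) + 1 : ℕ) : ℝ)) ^ n
        ≤ ∑ X ∈ range R, (3 ^ (n + 1) * (H : ℝ) ^ n * (1 / ((X : ℝ) + 1) ^ 2) + 3 * 2 ^ n * ((X : ℝ) + 1)) :=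
          sum_le_sum fun X _ => term n hn H X
      _ = 3 ^ (n + 1) * (H : ℝ) ^ n * (∑ X ∈ range R, 1 / ((X : ℝ) + 1) ^ 2) +
          3 * 2 ^ n * ∑ X ∈ range R, ((X : ℝ) + 1) := by
          rw [sum_add_distrib, mul_sum, mul_sum]
      _ ≤ _ := by
          have h1 : ∑ X ∈ range R, (1 : ℝ) / ((X : ℝ) + 1) ^ 2 ≤ 2 := by
            have h2 := sum_inv_sq R
            have h3 : (0 : ℝ) ≤ 2 / ((R : ℝ) + 1) := by positivity
            linarith
          have h2 := (sum_lin R).trans hRK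
          exact add_le_add (mul_le_mul_of_nonneg_left h1 (by positivity))
            (mul_le_mul_of_nonneg_left h2 (by positivity))
  have hHW : (H : ℝ) ^ n * W ≤ (2 * (H : ℝ) + 1) ^ (Fintype.card (Ix n) - 1) := by
    have h1 : (H : ℝ) ^ n ≤ (2 * (H : ℝ) + 1) ^ n := pow_le_pow_left₀ (by positivity) (by linarith) n
    have h2 : (2 * (H : ℝ) + 1) ^ (Fintype.card (Ix n) - 1) = (2 * (H : ℝ) + 1) ^ n * W := by
      rw [hW, ← pow_add]
      congr 1
      have h3 : n + 1 ≤ Fintype.card (Ix n) := by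
        rw [card_ix]
        rw [Nat.le_div_iff_mul_le (by norm_num)]
        nlinarith
      omega
    rw [h2]
    exact mul_le_mul_of_nonneg_right h1 hW0
  have hfin : ∑ X ∈ range R, (2 * (X : ℝ) + 3) * (4 * ((((2 * H / (X + 1) + 1 : ℕ) : ℝ)) ^ n * W)) =
      4 * W * ∑ X ∈ range R, (2 * (X : ℝ) + 3) * (((2 * H / (X + 1) + 1 : ℕ) : ℝ)) ^ n := by
    rw [mul_sum]
    refine sum_congr rfl fun X _ => ?_
    ring
  rw [hfin] at hmain'
  have h1 := mul_le_mul_of_nonneg_left hsum (by positivity : (0 : ℝ) ≤ 4 * W)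
  have h2 : 4 * W * (3 ^ (n + 1) * (H : ℝ) ^ n * 2 + 3 * 2 ^ n * (K ^ 2 * (H : ℝ) ^ n)) =
      (8 * 3 ^ (n + 1) + 12 * 2 ^ n * K ^ 2) * ((H : ℝ) ^ n * W) := by ring
  rw [h2] at h1
  have h3 := mul_le_mul_of_nonneg_left hHW (by positivity : (0 : ℝ) ≤ 8 * 3 ^ (n + 1) + 12 * 2 ^ n * K ^ 2)
  calc (S.card : ℝ) ≤ _ := hmain'
    _ ≤ (2 * (H : ℝ) + 1) ^ (Fintype.card (Ix n) - 1) +
        (8 * 3 ^ (n + 1) + 12 * 2 ^ n * K ^ 2) * (2 * (H : ℝ) + 1) ^ (Fintype.card (Ix n) - 1) := by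
        linarith
    _ = _ := by ring

end Pool.Agent.H8.AA
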