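import Pool.Agent.H8.AA.Lrg
import Pool.Agent.H2.AA.Sng

/-! # [H8 AA SNG] Few vectors with a singular curve

`fib` with `J = {ix 0 0}`, `M = (2n)^2` (`H2.AA.sng`: at most `(2n)^2` members of a pencil `F + τ` are singular): let `c_1, .., c_M` be vectors that
differ only in the constant coefficient `τ_i`, all `Ir`, none smooth: `F_i = F_0 + τ_i`. -/

namespace Pool.Agent.H8.AA

open MvPolynomial

private theorem pol_add {n : ℕ} {c d : Ix n → ℤ} (h : ∀ i, i ≠ ix 0 0 (by omega) → d i = c i) :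
    pol d = pol c + C (d (ix 0 0 (by omega)) - c (ix 0 0 (by omega))) := by
  ext m
  rw [coeff_add, pol_coeff, pol_coeff, coeff_C]
  by_cases hm : m = 0
  · subst hm
    rw [if_pos rfl]
    simp only [Finsupp.coe_zero, Pi.zero_apply]
    rw [co_of_le _ (by omega), co_of_le _ (by omega)]
    ring
  · rw [if_neg (Ne.symm hm), add_zero]
    unfold co
    split_ifs with h1
    · refine h _ (fun h2 => hm ?_)
      have h3 := congrArg (fun p : Ix n => (p.1.1.val, p.1.2.val)) h2
      simp only [ix, Prod.mk.injEq] at h3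
      ext i
      fin_cases i
      · exact h3.1
      · exact h3.2
    · rfl

theorem sng (n : ℕ) (hn : 3 ≤ n) : ∃ C : ℝ, 0 ≤ C ∧ ∀ H : ℕ, 1 ≤ H → ∀ S : Finset (Ix n → ℤ),
    (∀ c ∈ S, (∀ p, |c p| ≤ (H : ℤ)) ∧ Ir n (co c) ∧ ¬ Sm (pol c)) →
    (S.card : ℝ) ≤ C * (2 * (H : ℝ) + 1) ^ (Fintype.card (Ix n) - 1) := by
  classical
  refine ⟨((2 * n) ^ 2 : ℕ), by positivity, ?_⟩
  intro H hH S hS
  have hmain := fib ({ix 0 0 (by omega)} : Finset (Ix n)) H ((2 * n) ^ 2) S (fun c hc => (hS c hc).1) ?_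
  · rw [Finset.card_singleton] at hmain
    exact_mod_cast hmain
  · intro c hc T hT
    have hirr := hom_irr n (by omega) c (hS c hc).2.1
    have h1 := H2.AA.sng (by omega : 2 ≤ n) (pol c) (pol_deg c) hirr
    have h2 : ((T.image (fun d => d (ix 0 0 (by omega)) - c (ix 0 0 (by omega))) : Finset ℤ) : Set ℤ) ⊆
        {τ : ℤ | ∃ a b : ℂ, aeval ![a, b] (pol c + C τ) = 0 ∧ aeval ![a, b] (pderiv 0 (pol c)) = 0 ∧
          aeval ![a, b] (pderiv 1 (pol c)) = 0} := by
      intro τ hτ
      rw [Finset.mem_coe, Finset.mem_image] at hτ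
      obtain ⟨d, hd, rfl⟩ := hτ
      obtain ⟨hdS, hdc⟩ := hT d hd
      have hpa := pol_add (c := c) (d := d) (fun i hi => hdc i (by simpa using hi))
      have h3 := (hS d hdS).2.2
      unfold Sm at h3
      push Not at h3
      obtain ⟨a, b, k1, k2, k3⟩ := h3
      rw [hpa] at k1 k2 k3
      rw [map_add, pderiv_C, add_zero] at k2 k3
      exact ⟨a, b, k1, k2, k3⟩
    have h4 := (Set.encard_le_encard h2).trans h1
    rw [Set.encard_coe_eq_coe_finsetCard, Finset.card_image_of_injOn] at h4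
    · exact_mod_cast h4
    · intro d hd e he hde
      have h5 : d (ix 0 0 (by omega)) = e (ix 0 0 (by omega)) := by
        have : d (ix 0 0 (by omega)) - c (ix 0 0 (by omega)) = e (ix 0 0 (by omega)) - c (ix 0 0 (by omega)) := hde
        omega
      funext i
      by_cases hi : i = ix 0 0 (by omega)
      · rw [hi]
        exact h5
      · rw [(hT d hd).2 i (by simpa using hi), (hT e he).2 i (by simpa using hi)]

end Pool.Agent.H8.AA
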