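import Pool.Agent.H8.AA.Box
import Pool.Agent.H2.AA.Spn

/-! # [H8 AA SPN] Few vectors with `g ∈ ℚ f_x + ℚ f_y`

`f_j = co c (n-j) j`, `g_j = co c (n-1-j) j`. If `n² f_0 f_n = f_1 f_(n-1)`: `f_n ≠ 0` (`Ir`), so `f_0` is determined by the others: `fib` with
`J = {ix n 0}`, `M = 1` (`n ≥ 3`: the four positions are different). Otherwise `g_0 = w_0 n f_0 + w_1 f_1`, `g_(n-1) = w_0 f_(n-1) + w_1 n f_n` determine
`w_0, w_1`, so all `g_j`: `fib` with `J = {ix (n-1-j) j : 1 ≤ j ≤ n-2}` (nonempty; one element is enough: `J = {ix (n-2) 1}`), `M = 1`. -/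

namespace Pool.Agent.H8.AA

private theorem co_eq {n : ℕ} {c d : Ix n → ℤ} {a₀ b₀ : ℕ} (h₀ : a₀ + b₀ ≤ n)
    (h : ∀ i, i ≠ ix a₀ b₀ h₀ → c i = d i) {a b : ℕ} (hab : ¬ (a = a₀ ∧ b = b₀)) : co c a b = co d a b := by
  unfold co
  split_ifs with h1
  · refine h _ (fun h2 => hab ?_)
    have h3 := congrArg (fun p : Ix n => (p.1.1.val, p.1.2.val)) h2
    simp only [ix, Prod.mk.injEq] at h3
    exact h3
  · rfl

theorem spn (n : ℕ) (hn : 4 ≤ n) : ∃ C : ℝ, 0 ≤ C ∧ ∀ H : ℕ, 1 ≤ H → ∀ S : Finset (Ix n → ℤ),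
    (∀ c ∈ S, (∀ p, |c p| ≤ (H : ℤ)) ∧ Ir n (co c) ∧ Sp n (co c)) →
    (S.card : ℝ) ≤ C * (2 * (H : ℝ) + 1) ^ (Fintype.card (Ix n) - 1) := by
  classical
  refine ⟨2, by norm_num, ?_⟩
  intro H hH S hS
  obtain ⟨S1, hS1⟩ : ∃ S1, S1 = S.filter (fun c => (n : ℤ) ^ 2 * co c n 0 * co c 0 n = co c (n - 1) 1 * co c 1 (n - 1)) :=
    ⟨_, rfl⟩
  obtain ⟨S2, hS2⟩ : ∃ S2, S2 = S.filter (fun c => (n : ℤ) ^ 2 * co c n 0 * co c 0 n ≠ co c (n - 1) 1 * co c 1 (n - 1)) :=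
    ⟨_, rfl⟩
  have hsub : S ⊆ S1 ∪ S2 := by
    intro c hc
    rw [Finset.mem_union, hS1, hS2, Finset.mem_filter, Finset.mem_filter]
    by_cases h : (n : ℤ) ^ 2 * co c n 0 * co c 0 n = co c (n - 1) 1 * co c 1 (n - 1)
    · exact Or.inl ⟨hc, h⟩
    · exact Or.inr ⟨hc, h⟩
  have c1 : S1.card ≤ (2 * H + 1) ^ (Fintype.card (Ix n) - 1) := by
    refine H2.AA.det_one H (ix n 0 (by omega)) S1 (fun c hc => (hS c ?_).1) ?_
    · rw [hS1] at hc
      exact (Finset.mem_filter.1 hc).1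
    · intro c hc d hd hcd
      rw [hS1] at hc hd
      obtain ⟨hc0, hc1⟩ := Finset.mem_filter.1 hc
      obtain ⟨hd0, hd1⟩ := Finset.mem_filter.1 hd
      rw [← co_eq _ hcd (by omega : ¬ (0 = n ∧ n = 0)), ← co_eq _ hcd (by omega : ¬ (n - 1 = n ∧ 1 = 0)),
        ← co_eq _ hcd (by omega : ¬ (1 = n ∧ n - 1 = 0)), ← hc1] at hd1
      have h4 : co c 0 n ≠ 0 := (hS c hc0).2.1.1
      have h5 : (n : ℤ) ^ 2 ≠ 0 := pow_ne_zero _ (by exact_mod_cast (by omega : n ≠ 0))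
      have h6 := mul_right_cancel₀ h4 hd1
      have h7 := mul_left_cancel₀ h5 h6
      rw [co_of_le _ (by omega), co_of_le _ (by omega)] at h7
      exact h7.symm
  have c2 : S2.card ≤ (2 * H + 1) ^ (Fintype.card (Ix n) - 1) := by
    refine H2.AA.det_one H (ix (n - 2) 1 (by omega)) S2 (fun c hc => (hS c ?_).1) ?_
    · rw [hS2] at hc
      exact (Finset.mem_filter.1 hc).1
    · intro c hc d hd hcd
      rw [hS2] at hc hd
      obtain ⟨hc0, hc1⟩ := Finset.mem_filter.1 hc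
      obtain ⟨hd0, _⟩ := Finset.mem_filter.1 hd
      obtain ⟨u0, u1, hu⟩ := (hS c hc0).2.2
      obtain ⟨w0, w1, hw⟩ := (hS d hd0).2.2
      have e0 := hu 0 (by omega)
      have e2 := hu (n - 1) (by omega)
      have f0 := hw 0 (by omega)
      have f2 := hw (n - 1) (by omega)
      have g1 := hu 1 (by omega)
      have g2 := hw 1 (by omega)
      have s1 : n - 1 - (n - 1) = 0 := by omega
      have s2 : n - (n - 1) = 1 := by omega
      have s3 : n - 1 + 1 = n := by omega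
      have s4 : n - 1 - 1 = n - 2 := by omega
      rw [Nat.sub_zero, Nat.sub_zero, zero_add] at e0 f0
      rw [s1, s2, s3] at e2 f2
      rw [s4] at g1 g2
      rw [← co_eq _ hcd (by omega : ¬ (n - 1 = n - 2 ∧ 0 = 1)), ← co_eq _ hcd (by omega : ¬ (n = n - 2 ∧ 0 = 1)),
        ← co_eq _ hcd (by omega : ¬ (n - 1 = n - 2 ∧ 1 = 1))] at f0
      rw [← co_eq _ hcd (by omega : ¬ (0 = n - 2 ∧ n - 1 = 1)), ← co_eq _ hcd (by omega : ¬ (1 = n - 2 ∧ n - 1 = 1)),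
        ← co_eq _ hcd (by omega : ¬ (0 = n - 2 ∧ n = 1))] at f2
      rw [← co_eq _ hcd (by omega : ¬ (n - 1 = n - 2 ∧ 1 = 1)),
        ← co_eq _ hcd (by omega : ¬ (n - 2 = n - 2 ∧ 1 + 1 = 1))] at g2
      have hD : (n : ℚ) ^ 2 * co c n 0 * co c 0 n - co c (n - 1) 1 * co c 1 (n - 1) ≠ 0 := by
        intro h
        apply hc1
        have := sub_eq_zero.1 h
        exact_mod_cast this
      push_cast at e0 f0 e2 f2
      have hu0 : u0 = w0 := by
        have : (u0 - w0) * ((n : ℚ) ^ 2 * co c n 0 * co c 0 n - co c (n - 1) 1 * co c 1 (n - 1)) = 0 := by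
          linear_combination (n * (co c 0 n : ℚ)) * (f0 - e0) - (co c (n - 1) 1 : ℚ) * (f2 - e2)
        rcases mul_eq_zero.1 this with h | h
        · exact sub_eq_zero.1 h
        · exact absurd h hD
      have hu1 : u1 = w1 := by
        have : (u1 - w1) * ((n : ℚ) ^ 2 * co c n 0 * co c 0 n - co c (n - 1) 1 * co c 1 (n - 1)) = 0 := by
          linear_combination (n * (co c n 0 : ℚ)) * (f2 - e2) - (co c 1 (n - 1) : ℚ) * (f0 - e0)
        rcases mul_eq_zero.1 this with h | h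
        · exact sub_eq_zero.1 h
        · exact absurd h hD
      rw [← hu0, ← hu1, ← g1] at g2
      have h8 : co d (n - 2) 1 = co c (n - 2) 1 := by exact_mod_cast g2
      rw [co_of_le _ (by omega), co_of_le _ (by omega)] at h8
      exact h8.symm
  have h9 : S.card ≤ 2 * (2 * H + 1) ^ (Fintype.card (Ix n) - 1) := by
    calc S.card ≤ (S1 ∪ S2).card := Finset.card_le_card hsub
      _ ≤ S1.card + S2.card := Finset.card_union_le _ _
      _ ≤ 2 * (2 * H + 1) ^ (Fintype.card (Ix n) - 1) := by omega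
  exact_mod_cast h9

end Pool.Agent.H8.AA
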