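import Pool.Agent.H8.AA.Lvl
import Pool.Agent.H8.AA.Sml
import Pool.Agent.H8.AA.Red
import Pool.Agent.H8.AA.Spn
import Pool.Agent.H8.AA.Sng
import Pool.Agent.H8.AA.Lrg

/-! # [H8 AA ASM] Assembly -/

namespace Pool.Agent.H8.AA

open MvPolynomial Finset

theorem cnt (n : ℕ) (hn : 4 ≤ n) : ∃ C : ℝ, 0 ≤ C ∧ ∀ H : ℕ, 2 ≤ H → ∀ S : Finset (Ix n → ℤ),
    (∀ c ∈ S, (∀ p, |c p| ≤ (H : ℤ)) ∧ ∃ x y : ℤ, ev n (co c) x y = 0) →
    (S.card : ℝ) ≤ C * (2 * (H : ℝ) + 1) ^ (Fintype.card (Ix n) - 1) * (H : ℝ) ^ (1 / (n : ℝ)) *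
      (1 + Real.log H) ^ 2 := by
  classical
  obtain ⟨E, C₁, hC₁, h₁⟩ := lrg n hn
  obtain ⟨C₂, K, hC₂, hK, h₂⟩ := lvl n (by omega) E
  obtain ⟨C₃, hC₃, h₃⟩ := sml n hn K
  obtain ⟨C₄, hC₄, h₄⟩ := red n (by omega)
  obtain ⟨C₅, hC₅, h₅⟩ := spn n hn
  obtain ⟨C₆, hC₆, h₆⟩ := sng n (by omega)
  refine ⟨C₁ + C₂ + C₃ + C₄ + C₅ + C₆, by positivity, fun H hH S hS => ?_⟩
  have hH' : 1 ≤ H := by omega
  have hH1 : (1 : ℝ) ≤ H := by exact_mod_cast hH'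
  obtain ⟨S1, hS1⟩ : ∃ S1 : Finset (Ix n → ℤ), S1 = S.filter (fun c => Ir n (co c) ∧ ¬ Sp n (co c) ∧
      Sm (pol c) ∧ ∃ x y : ℤ, ev n (co c) x y = 0 ∧ (H : ℤ) ^ E < max |x| |y|) := ⟨_, rfl⟩
  obtain ⟨S2, hS2⟩ : ∃ S2 : Finset (Ix n → ℤ), S2 = S.filter (fun c => Ir n (co c) ∧
      ∃ x y : ℤ, ev n (co c) x y = 0 ∧ K * (H : ℝ) ^ 2 ≤ (max |x| |y| : ℤ) ∧ max |x| |y| ≤ (H : ℤ) ^ E) := ⟨_, rfl⟩
  obtain ⟨S3, hS3⟩ : ∃ S3 : Finset (Ix n → ℤ), S3 = S.filter (fun c =>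
      ∃ x y : ℤ, (max |x| |y| : ℤ) ≤ K * (H : ℝ) ^ 2 ∧ ev n (co c) x y = 0) := ⟨_, rfl⟩
  obtain ⟨S4, hS4⟩ : ∃ S4 : Finset (Ix n → ℤ), S4 = S.filter (fun c => ¬ Ir n (co c)) := ⟨_, rfl⟩
  obtain ⟨S5, hS5⟩ : ∃ S5 : Finset (Ix n → ℤ), S5 = S.filter (fun c => Ir n (co c) ∧ Sp n (co c)) := ⟨_, rfl⟩
  obtain ⟨S6, hS6⟩ : ∃ S6 : Finset (Ix n → ℤ), S6 = S.filter (fun c => Ir n (co c) ∧ ¬ Sm (pol c)) := ⟨_, rfl⟩
  have hcov : S ⊆ S1 ∪ S2 ∪ S3 ∪ S4 ∪ S5 ∪ S6 := by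
    intro c hc
    by_contra hcon
    simp only [Finset.mem_union, not_or] at hcon
    obtain ⟨⟨⟨⟨⟨g1, g2⟩, g3⟩, g4⟩, g5⟩, g6⟩ := hcon
    rw [hS1, Finset.mem_filter, not_and] at g1
    rw [hS2, Finset.mem_filter, not_and] at g2
    rw [hS3, Finset.mem_filter, not_and] at g3
    rw [hS4, Finset.mem_filter, not_and, not_not] at g4
    rw [hS5, Finset.mem_filter, not_and, not_and] at g5
    rw [hS6, Finset.mem_filter, not_and, not_and, not_not] at g6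
    have k4 := g4 hc
    have k5 := g5 hc k4
    have k6 := g6 hc k4
    obtain ⟨x, y, hxy⟩ := (hS c hc).2
    rcases le_or_gt ((max |x| |y| : ℤ) : ℝ) (K * (H : ℝ) ^ 2) with h | h
    · exact g3 hc ⟨x, y, h, hxy⟩
    · rcases le_or_gt (max |x| |y|) ((H : ℤ) ^ E) with h' | h'
      · exact g2 hc ⟨k4, x, y, hxy, h.le, h'⟩
      · exact g1 hc ⟨k4, k5, k6, x, y, hxy, h'⟩
  obtain ⟨W, hW⟩ : ∃ W : ℝ, W = (2 * (H : ℝ) + 1) ^ (Fintype.card (Ix n) - 1) := ⟨_, rfl⟩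
  obtain ⟨Z, hZ⟩ : ∃ Z : ℝ, Z = (H : ℝ) ^ (1 / (n : ℝ)) * (1 + Real.log H) ^ 2 := ⟨_, rfl⟩
  have hZ1 : 1 ≤ Z := by
    rw [hZ]
    have e1 : 1 ≤ (H : ℝ) ^ (1 / (n : ℝ)) := Real.one_le_rpow hH1 (by positivity)
    have e2 : 1 ≤ (1 + Real.log H) ^ 2 := one_le_pow₀ (by linarith [Real.log_nonneg hH1])
    nlinarith
  have hW0 : 0 < W := by
    rw [hW]
    positivity
  have c1 : (S1.card : ℝ) ≤ C₁ * W := by
    rw [hW]
    refine h₁ H hH S1 fun c hc => ?_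
    rw [hS1, Finset.mem_filter] at hc
    exact ⟨(hS c hc.1).1, hc.2⟩
  have c2 : (S2.card : ℝ) ≤ C₂ * W * Z := by
    rw [hW, hZ, ← mul_assoc]
    refine h₂ H hH' S2 fun c hc => ?_
    rw [hS2, Finset.mem_filter] at hc
    exact ⟨(hS c hc.1).1, hc.2⟩
  have c3 : (S3.card : ℝ) ≤ C₃ * W := by
    rw [hW]
    refine h₃ H hH' S3 fun c hc => ?_
    rw [hS3, Finset.mem_filter] at hc
    exact ⟨(hS c hc.1).1, hc.2⟩
  have c4 : (S4.card : ℝ) ≤ C₄ * W := by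
    rw [hW]
    refine h₄ H hH' S4 fun c hc => ?_
    rw [hS4, Finset.mem_filter] at hc
    exact ⟨(hS c hc.1).1, hc.2⟩
  have c5 : (S5.card : ℝ) ≤ C₅ * W := by
    rw [hW]
    refine h₅ H hH' S5 fun c hc => ?_
    rw [hS5, Finset.mem_filter] at hc
    exact ⟨(hS c hc.1).1, hc.2⟩
  have c6 : (S6.card : ℝ) ≤ C₆ * W := by
    rw [hW]
    refine h₆ H hH' S6 fun c hc => ?_
    rw [hS6, Finset.mem_filter] at hc
    exact ⟨(hS c hc.1).1, hc.2⟩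
  have htot : S.card ≤ S1.card + S2.card + S3.card + S4.card + S5.card + S6.card := by
    refine (Finset.card_le_card hcov).trans ((Finset.card_union_le _ _).trans (Nat.add_le_add_right ?_ _))
    refine (Finset.card_union_le _ _).trans (Nat.add_le_add_right ?_ _)
    refine (Finset.card_union_le _ _).trans (Nat.add_le_add_right ?_ _)
    refine (Finset.card_union_le _ _).trans (Nat.add_le_add_right ?_ _)
    exact Finset.card_union_le _ _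
  have htot' : (S.card : ℝ) ≤ S1.card + S2.card + S3.card + S4.card + S5.card + S6.card := by exact_mod_cast htot
  rw [mul_assoc, ← hW, ← hZ]
  have d : ∀ C : ℝ, 0 ≤ C → C * W ≤ C * W * Z := fun C hC => by
    have : 0 ≤ C * W := by positivity
    nlinarith
  have d1 := d C₁ hC₁
  have d3 := d C₃ hC₃
  have d4 := d C₄ hC₄
  have d5 := d C₅ hC₅
  have d6 := d C₆ hC₆
  calc (S.card : ℝ) ≤ C₁ * W * Z + C₂ * W * Z + C₃ * W * Z + C₄ * W * Z + C₅ * W * Z + C₆ * W * Z := by linarith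
    _ = (C₁ + C₂ + C₃ + C₄ + C₅ + C₆) * W * Z := by ring

/-- the number of polynomials with an integer zero -/
theorem main (n : ℕ) (hn : 4 ≤ n) : ∃ C : ℝ, ∀ H : ℕ, 1 ≤ H →
    (Set.ncard {F : MvPolynomial (Fin 2) ℤ | F.totalDegree ≤ n ∧ (∀ m, |F.coeff m| ≤ (H : ℤ)) ∧
      ∃ P : Fin 2 → ℤ, eval P F = 0} : ℝ) ≤
      C * (H : ℝ) ^ (((n + 1) * (n + 2) / 2 - 1 : ℕ) + 1 / (n : ℝ)) * (1 + Real.log H) ^ 2 := by
  classical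
  obtain ⟨C, hC, h⟩ := cnt n hn
  obtain ⟨N, hN⟩ : ∃ N : ℕ, N = (n + 1) * (n + 2) / 2 := ⟨_, rfl⟩
  rw [← hN]
  refine ⟨3 ^ N * (C + 1), fun H hH => ?_⟩
  have hH1 : (1 : ℝ) ≤ H := by exact_mod_cast hH
  have hH0 : (0 : ℝ) < H := by linarith
  rw [pol_set n H (fun F => ∃ P : Fin 2 → ℤ, eval P F = 0)]
  obtain ⟨S, hS⟩ : ∃ S : Finset (Ix n → ℤ), S = (box n H).filter (fun c => ∃ P : Fin 2 → ℤ, eval P (pol c) = 0) :=
    ⟨_, rfl⟩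
  have hset : {c : Ix n → ℤ | c ∈ box n H ∧ ∃ P : Fin 2 → ℤ, eval P (pol c) = 0} = (S : Set (Ix n → ℤ)) := by
    ext c
    rw [hS, Finset.coe_filter]
  rw [hset, Set.ncard_coe_finset]
  have hY1 : 1 ≤ (H : ℝ) ^ (1 / (n : ℝ)) := Real.one_le_rpow hH1 (by positivity)
  have hL1 : 1 ≤ (1 + Real.log H) ^ 2 := one_le_pow₀ (by linarith [Real.log_nonneg hH1])
  have hexp : (H : ℝ) ^ (((N - 1 : ℕ) : ℝ) + 1 / (n : ℝ)) = (H : ℝ) ^ (N - 1) * (H : ℝ) ^ (1 / (n : ℝ)) := by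
    rw [Real.rpow_add hH0, Real.rpow_natCast]
  rw [hexp]
  rcases Nat.lt_or_ge H 2 with h2 | h2
  · have hH' : H = 1 := by omega
    subst hH'
    have h3 : S.card ≤ 3 ^ N := by
      rw [hS]
      refine (Finset.card_filter_le _ _).trans ?_
      rw [card_box, hN]
    have h4 : (S.card : ℝ) ≤ 3 ^ N := by exact_mod_cast h3
    simp only [Nat.cast_one, one_pow, Real.one_rpow, mul_one, Real.log_one, add_zero]
    nlinarith [show (0 : ℝ) < 3 ^ N by positivity]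
  · have h3 := h H h2 S (fun c hc => by
      rw [hS, Finset.mem_filter] at hc
      refine ⟨mem_box.1 hc.1, ?_⟩
      obtain ⟨P, hP⟩ := hc.2
      exact ⟨P 0, P 1, by rw [← pol_eval]; exact hP⟩)
    rw [card_ix, ← hN] at h3
    refine h3.trans ?_
    have h4 : (2 * (H : ℝ) + 1) ^ (N - 1) ≤ 3 ^ N * (H : ℝ) ^ (N - 1) := by
      calc (2 * (H : ℝ) + 1) ^ (N - 1) ≤ (3 * H) ^ (N - 1) := pow_le_pow_left₀ (by positivity) (by linarith) _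
        _ = 3 ^ (N - 1) * (H : ℝ) ^ (N - 1) := mul_pow _ _ _
        _ ≤ 3 ^ N * (H : ℝ) ^ (N - 1) := mul_le_mul_of_nonneg_right
            (pow_le_pow_right₀ (by norm_num) (Nat.sub_le _ _)) (by positivity)
    have h5 : 0 ≤ (H : ℝ) ^ (1 / (n : ℝ)) * (1 + Real.log H) ^ 2 := by positivity
    calc C * (2 * (H : ℝ) + 1) ^ (N - 1) * (H : ℝ) ^ (1 / (n : ℝ)) * (1 + Real.log H) ^ 2
        = C * (2 * (H : ℝ) + 1) ^ (N - 1) * ((H : ℝ) ^ (1 / (n : ℝ)) * (1 + Real.log H) ^ 2) := by ring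
      _ ≤ C * (3 ^ N * (H : ℝ) ^ (N - 1)) * ((H : ℝ) ^ (1 / (n : ℝ)) * (1 + Real.log H) ^ 2) :=
          mul_le_mul_of_nonneg_right (mul_le_mul_of_nonneg_left h4 hC) h5
      _ ≤ (C + 1) * (3 ^ N * (H : ℝ) ^ (N - 1)) * ((H : ℝ) ^ (1 / (n : ℝ)) * (1 + Real.log H) ^ 2) :=
          mul_le_mul_of_nonneg_right (mul_le_mul_of_nonneg_right (by linarith) (by positivity)) h5
      _ = 3 ^ N * (C + 1) * ((H : ℝ) ^ (N - 1) * (H : ℝ) ^ (1 / (n : ℝ))) * (1 + Real.log H) ^ 2 := by ring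

end Pool.Agent.H8.AA
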