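import Pool.Agent.H8.AA.Box

/-! # [H8 AA BAD] Few forms with `f(1,t)` and `f_t(1,t)` both small for some `t`

`¬ Gd`: some `|t| ≤ 1` has `|f(1,t)|, |f_t(1,t)| ≤ H/A`. Grid: `t_i = i/m`, `m = ⌈A⌉₊`, `|i| ≤ m`; some `|t - t_i| ≤ 1/m ≤ 1/A`, so
`|f(1,t_i)|, |f_t(1,t_i)| ≤ c H/A`, `c = c(n)`. For fixed `i` and fixed other coordinates, the coefficient of `x^(n-1) y` (that of `T` in `f(1,T)`)
is in an interval of length `2 c H/A`, given it that of `x^n` too: at most `(2 c H/A + 1)² ≤ (c' H/A)²` choices (`A ≤ H`). `fib` with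
`J = {ix (n-1) 1, ix n 0, ix 0 0}` (the coordinate `ix 0 0` is `0`): total `(2m+1) (c' H/A)² (2H+1)^(|Ix n| - 3) ≤ C (2H+1)^(|Ix n| - 1)/A`.
`sw`: exchange the coordinates (an involution of `Ix n`) or repeat the proof with `J = {ix 1 (n-1), ix 0 n, ix 0 0}`. -/

namespace Pool.Agent.H8.AA

open Finset

private theorem int_card (S : Finset ℤ) (y R : ℝ) (hR : 0 ≤ R) (h : ∀ k ∈ S, |(k : ℝ) + y| ≤ R) :
    (S.card : ℝ) ≤ 2 * R + 1 := by
  have hsub : S ⊆ Finset.Icc ⌈-R - y⌉ ⌊R - y⌋ := by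
    intro k hk
    have h1 := abs_le.1 (h k hk)
    rw [Finset.mem_Icc]
    constructor
    · rw [Int.ceil_le]; linarith
    · rw [Int.le_floor]; linarith
  have h2 := Finset.card_le_card hsub
  rw [Int.card_Icc] at h2
  have h3 : ((⌊R - y⌋ + 1 - ⌈-R - y⌉).toNat : ℝ) ≤ 2 * R + 1 := by
    have h4 : (((⌊R - y⌋ + 1 - ⌈-R - y⌉).toNat : ℤ) : ℝ) = ((max (⌊R - y⌋ + 1 - ⌈-R - y⌉) 0 : ℤ) : ℝ) := by
      rw [Int.toNat_eq_max]
    rw [Int.cast_natCast] at h4
    rw [h4, Int.cast_max]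
    refine max_le ?_ (by push_cast; linarith)
    have h5 := Int.floor_le (R - y)
    have h6 := Int.le_ceil (-R - y)
    push_cast
    linarith
  calc (S.card : ℝ) ≤ ((⌊R - y⌋ + 1 - ⌈-R - y⌉).toNat : ℝ) := by exact_mod_cast h2
    _ ≤ _ := h3

/-- the number of vectors with value and derivative small at a given point -/
private theorem bad_pt {ι : Type} [Fintype ι] [DecidableEq ι] (m H : ℕ) (φ : ℕ → ι) (z : ι)
    (h01 : φ 0 ≠ φ 1) (hj0 : ∀ j, j < m + 1 → φ (j + 2) ≠ φ 0) (hj1 : ∀ j, j < m + 1 → φ (j + 2) ≠ φ 1)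
    (hjz : ∀ j, j < m + 1 → φ (j + 2) ≠ z) (h0z : φ 0 ≠ z) (h1z : φ 1 ≠ z) (t R : ℝ) (hR : 0 ≤ R)
    (S : Finset (ι → ℤ))
    (hS : ∀ c ∈ S, (∀ i, |c i| ≤ (H : ℤ)) ∧ c z = 0 ∧ |∑ j ∈ range (m + 2 + 1), (c (φ j) : ℝ) * t ^ j| ≤ R ∧
      |∑ j ∈ range (m + 2 + 1), (c (φ j) : ℝ) * (j * t ^ (j - 1))| ≤ R) :
    (S.card : ℝ) ≤ (2 * R + 1) ^ 2 * (2 * (H : ℝ) + 1) ^ (Fintype.card ι - 3) := by
  classical
  set J : Finset ι := {φ 0, φ 1, z} with hJ
  have hJc : J.card = 3 := by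
    rw [hJ, Finset.card_insert_of_notMem, Finset.card_insert_of_notMem, Finset.card_singleton]
    · simpa using h1z
    · simp only [Finset.mem_insert, Finset.mem_singleton, not_or]
      exact ⟨h01, h0z⟩
  have hfib : ∀ c ∈ S, ∀ T : Finset (ι → ℤ), (∀ c' ∈ T, c' ∈ S ∧ ∀ i, i ∉ J → c' i = c i) →
      T.card ≤ ⌊(2 * R + 1) ^ 2⌋₊ := by
    intro c hc T hT
    rw [Nat.le_floor_iff (by positivity)]
    have hJm : ∀ j, j < m + 1 → φ (j + 2) ∉ J := by
      intro j hj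
      rw [hJ]
      simp only [Finset.mem_insert, Finset.mem_singleton, not_or]
      exact ⟨hj0 j hj, hj1 j hj, hjz j hj⟩
    -- sums
    have hs : ∀ (g : ℕ → ℝ) (c' : ι → ℤ), ∑ j ∈ range (m + 2 + 1), (c' (φ j) : ℝ) * g j =
        ∑ j ∈ range (m + 1), (c' (φ (j + 2)) : ℝ) * g (j + 2) + (c' (φ 1) : ℝ) * g 1 + (c' (φ 0) : ℝ) * g 0 := by
      intro g c'
      rw [Finset.sum_range_succ', Finset.sum_range_succ']
    have hrest : ∀ (g : ℕ → ℝ) (c' : ι → ℤ), c' ∈ T → ∑ j ∈ range (m + 1), (c' (φ (j + 2)) : ℝ) * g (j + 2) =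
        ∑ j ∈ range (m + 1), (c (φ (j + 2)) : ℝ) * g (j + 2) := by
      intro g c' hc'
      refine Finset.sum_congr rfl fun j hj => ?_
      rw [(hT c' hc').2 _ (hJm j (Finset.mem_range.1 hj))]
    set I1 : Finset ℤ := T.image fun c' => c' (φ 1) with hI1
    have hc1 : (I1.card : ℝ) ≤ 2 * R + 1 := by
      refine int_card I1 (∑ j ∈ range (m + 1), (c (φ (j + 2)) : ℝ) *
        (((j + 2 : ℕ) : ℝ) * t ^ (j + 2 - 1))) R hR ?_
      intro k hk
      rw [hI1, Finset.mem_image] at hk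
      obtain ⟨c', hc', rfl⟩ := hk
      have h1 := (hS c' (hT c' hc').1).2.2.2
      rw [hs (fun j => (j : ℝ) * t ^ (j - 1)) c', hrest (fun j => (j : ℝ) * t ^ (j - 1)) c' hc'] at h1
      have h2 : ∑ j ∈ range (m + 1), (c (φ (j + 2)) : ℝ) * (((j + 2 : ℕ) : ℝ) * t ^ (j + 2 - 1)) +
          (c' (φ 1) : ℝ) * (((1 : ℕ) : ℝ) * t ^ (1 - 1)) + (c' (φ 0) : ℝ) * (((0 : ℕ) : ℝ) * t ^ (0 - 1)) =
          (c' (φ 1) : ℝ) + ∑ j ∈ range (m + 1), (c (φ (j + 2)) : ℝ) * (((j + 2 : ℕ) : ℝ) * t ^ (j + 2 - 1)) := by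
        rw [Nat.cast_zero, zero_mul, mul_zero, add_zero, Nat.cast_one, one_mul, Nat.sub_self, pow_zero,
          mul_one, add_comm]
      rwa [h2] at h1
    have hfib1 : ∀ k ∈ I1, (((T.filter fun c' => c' (φ 1) = k).card : ℕ) : ℝ) ≤ 2 * R + 1 := by
      intro k _
      have hinj : (T.filter fun c' => c' (φ 1) = k).card =
          ((T.filter fun c' => c' (φ 1) = k).image fun c' => c' (φ 0)).card := by
        refine (Finset.card_image_of_injOn ?_).symm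
        intro c1 hc1 c2 hc2 h0
        rw [Finset.mem_coe, Finset.mem_filter] at hc1 hc2
        have h0 : c1 (φ 0) = c2 (φ 0) := h0
        funext i
        by_cases hi : i ∈ J
        · rw [hJ] at hi
          simp only [Finset.mem_insert, Finset.mem_singleton] at hi
          rcases hi with rfl | rfl | rfl
          · exact h0
          · rw [hc1.2, hc2.2]
          · rw [(hS c1 (hT c1 hc1.1).1).2.1, (hS c2 (hT c2 hc2.1).1).2.1]
        · rw [(hT c1 hc1.1).2 i hi, (hT c2 hc2.1).2 i hi]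
      rw [hinj]
      refine int_card _ (∑ j ∈ range (m + 1), (c (φ (j + 2)) : ℝ) * t ^ (j + 2) + (k : ℝ) * t) R hR ?_
      intro x hx
      rw [Finset.mem_image] at hx
      obtain ⟨c', hc', rfl⟩ := hx
      rw [Finset.mem_filter] at hc'
      have h1 := (hS c' (hT c' hc'.1).1).2.2.1
      rw [hs (fun j => t ^ j) c', hrest (fun j => t ^ j) c' hc'.1, hc'.2] at h1
      have h2 : ∑ j ∈ range (m + 1), (c (φ (j + 2)) : ℝ) * t ^ (j + 2) + (k : ℝ) * t ^ 1 +
          (c' (φ 0) : ℝ) * t ^ 0 =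
          (c' (φ 0) : ℝ) + (∑ j ∈ range (m + 1), (c (φ (j + 2)) : ℝ) * t ^ (j + 2) + (k : ℝ) * t) := by
        rw [pow_one, pow_zero, mul_one, add_comm]
      rwa [h2] at h1
    have h3 : (T.card : ℝ) = ∑ k ∈ I1, (((T.filter fun c' => c' (φ 1) = k).card : ℕ) : ℝ) := by
      rw [← Nat.cast_sum]
      congr 1
      exact Finset.card_eq_sum_card_image (fun c' => c' (φ 1)) T
    rw [h3]
    calc ∑ k ∈ I1, (((T.filter fun c' => c' (φ 1) = k).card : ℕ) : ℝ) ≤ ∑ _k ∈ I1, (2 * R + 1) :=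
          Finset.sum_le_sum hfib1
      _ = I1.card * (2 * R + 1) := by rw [Finset.sum_const, nsmul_eq_mul]
      _ ≤ (2 * R + 1) * (2 * R + 1) := mul_le_mul_of_nonneg_right hc1 (by linarith)
      _ = (2 * R + 1) ^ 2 := by ring
  have h4 := fib J H ⌊(2 * R + 1) ^ 2⌋₊ S (fun c hc => (hS c hc).1) hfib
  rw [hJc] at h4
  have h5 : (S.card : ℝ) ≤ ((⌊(2 * R + 1) ^ 2⌋₊ : ℕ) : ℝ) * (2 * (H : ℝ) + 1) ^ (Fintype.card ι - 3) := by
    exact_mod_cast h4
  refine h5.trans (mul_le_mul_of_nonneg_right (Nat.floor_le (by positivity)) (by positivity))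

/-- powers of nearby points of `[-1,1]` -/
private theorem pow_lip (k : ℕ) (s t : ℝ) (hs : |s| ≤ 1) (ht : |t| ≤ 1) : |s ^ k - t ^ k| ≤ k * |s - t| := by
  induction k with
  | zero => simp
  | succ k ih =>
    have e : s ^ (k + 1) - t ^ (k + 1) = s * (s ^ k - t ^ k) + (s - t) * t ^ k := by ring
    rw [e]
    refine (abs_add_le _ _).trans ?_
    rw [abs_mul, abs_mul, abs_pow]
    have h1 : |s| * |s ^ k - t ^ k| ≤ 1 * (k * |s - t|) := mul_le_mul hs ih (abs_nonneg _) zero_le_one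
    have h2 : |s - t| * |t| ^ k ≤ |s - t| * 1 :=
      mul_le_mul_of_nonneg_left (pow_le_one₀ (abs_nonneg _) ht) (abs_nonneg _)
    push_cast
    linarith

/-- a small value and a small derivative at `t` give the same at the grid point -/
private theorem grid (n H : ℕ) (e : ℕ → ℤ) (he : ∀ j, j ≤ n → |e j| ≤ (H : ℤ)) (A : ℝ) (hA : 1 ≤ A) (t s : ℝ)
    (ht : |t| ≤ 1) (hs : |s| ≤ 1) (hst : |s - t| ≤ 1 / A) (g : ℕ → ℝ) (k : ℕ → ℕ) (hg : ∀ j, j ≤ n → |g j| ≤ n + 1)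
    (hk : ∀ j, j ≤ n → k j ≤ n + 1)
    (h : |∑ j ∈ range (n + 1), (e j : ℝ) * (g j * t ^ (k j))| ≤ H / A) :
    |∑ j ∈ range (n + 1), (e j : ℝ) * (g j * s ^ (k j))| ≤ (1 + ((n : ℝ) + 1) ^ 3) * (H / A) := by
  have hA0 : 0 < A := by linarith
  have h3 : ∑ j ∈ range (n + 1), (e j : ℝ) * (g j * s ^ (k j)) = ∑ j ∈ range (n + 1), (e j : ℝ) * (g j * t ^ (k j)) +
      ∑ j ∈ range (n + 1), (e j : ℝ) * (g j * (s ^ (k j) - t ^ (k j))) := by
    rw [← Finset.sum_add_distrib]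
    refine Finset.sum_congr rfl fun i _ => ?_
    ring
  rw [h3]
  refine (abs_add_le _ _).trans ?_
  have h4 : |∑ j ∈ range (n + 1), (e j : ℝ) * (g j * (s ^ (k j) - t ^ (k j)))| ≤ ((n : ℝ) + 1) ^ 3 * (H / A) := by
    refine (Finset.abs_sum_le_sum_abs _ _).trans ?_
    have h5 : ∀ j ∈ range (n + 1), |(e j : ℝ) * (g j * (s ^ (k j) - t ^ (k j)))| ≤ ((n : ℝ) + 1) ^ 2 * (H / A) := by
      intro j hj
      have hj' : j ≤ n := by
        have := Finset.mem_range.1 hj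
        omega
      rw [abs_mul, abs_mul]
      have h6 := pow_lip (k j) s t hs ht
      have h7 : |s ^ (k j) - t ^ (k j)| ≤ ((n : ℝ) + 1) * (1 / A) := by
        refine h6.trans ?_
        refine mul_le_mul ?_ hst (abs_nonneg _) (by positivity)
        exact_mod_cast hk j hj'
      have h8 : |(e j : ℝ)| ≤ H := by
        have h9 : |(e j : ℝ)| = ((|e j| : ℤ) : ℝ) := by push_cast; rfl
        rw [h9]
        exact_mod_cast he j hj'
      calc |(e j : ℝ)| * (|g j| * |s ^ (k j) - t ^ (k j)|) ≤ H * (((n : ℝ) + 1) * (((n : ℝ) + 1) * (1 / A))) :=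
            mul_le_mul h8 (mul_le_mul (hg j hj') h7 (abs_nonneg _) (by positivity)) (by positivity) (by positivity)
        _ = ((n : ℝ) + 1) ^ 2 * (H / A) := by ring
    refine (Finset.sum_le_sum h5).trans ?_
    rw [Finset.sum_const, Finset.card_range, nsmul_eq_mul]
    push_cast
    have : ((n : ℝ) + 1) * (((n : ℝ) + 1) ^ 2 * (H / A)) = ((n : ℝ) + 1) ^ 3 * (H / A) := by ring
    rw [this]
  calc |∑ j ∈ range (n + 1), (e j : ℝ) * (g j * t ^ (k j))| +
        |∑ j ∈ range (n + 1), (e j : ℝ) * (g j * (s ^ (k j) - t ^ (k j)))|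
      ≤ H / A + ((n : ℝ) + 1) ^ 3 * (H / A) := add_le_add h h4
    _ = _ := by ring

/-- one chart: the vectors `c` with `c ∘ φ` bad -/
private theorem bad_chart {ι : Type} [Fintype ι] [DecidableEq ι] (m H : ℕ) (φ : ℕ → ι) (z : ι) (h3 : 3 ≤ Fintype.card ι)
    (h01 : φ 0 ≠ φ 1) (hj0 : ∀ j, j < m + 1 → φ (j + 2) ≠ φ 0) (hj1 : ∀ j, j < m + 1 → φ (j + 2) ≠ φ 1)
    (hjz : ∀ j, j < m + 1 → φ (j + 2) ≠ z) (h0z : φ 0 ≠ z) (h1z : φ 1 ≠ z) (A : ℝ) (hA : 1 ≤ A) (hAH : A ≤ H)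
    (S : Finset (ι → ℤ))
    (hS : ∀ c ∈ S, (∀ i, |c i| ≤ (H : ℤ)) ∧ c z = 0 ∧ ∃ t : ℝ, |t| ≤ 1 ∧
      |∑ j ∈ range (m + 2 + 1), (c (φ j) : ℝ) * t ^ j| ≤ H / A ∧
      |∑ j ∈ range (m + 2 + 1), (c (φ j) : ℝ) * (j * t ^ (j - 1))| ≤ H / A) :
    (S.card : ℝ) ≤ 5 * (3 * (1 + ((m : ℝ) + 3) ^ 3)) ^ 2 * (2 * (H : ℝ) + 1) ^ (Fintype.card ι - 1) / A := by
  classical
  have hA0 : 0 < A := by linarith
  have hH0 : (0 : ℝ) < H := by linarith
  set K : ℝ := 1 + ((m : ℝ) + 3) ^ 3 with hK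
  have hK1 : 1 ≤ K := by
    rw [hK]
    have : (0 : ℝ) ≤ ((m : ℝ) + 3) ^ 3 := by positivity
    linarith
  set R : ℝ := K * (H / A) with hR
  have hR0 : 0 ≤ R := by positivity
  set N : ℕ := ⌈A⌉₊ with hN
  have hN0 : (0 : ℝ) < N := by
    have := Nat.le_ceil A
    rw [← hN] at this
    linarith
  have hNA : A ≤ N := Nat.le_ceil A
  have hNA2 : (N : ℝ) ≤ A + 1 := (Nat.ceil_lt_add_one hA0.le).le
  set G : Finset ℤ := Finset.Icc (-(N : ℤ)) N with hG
  set Sj : ℤ → Finset (ι → ℤ) := fun i => S.filter fun c =>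
    |∑ j ∈ range (m + 2 + 1), (c (φ j) : ℝ) * ((i : ℝ) / N) ^ j| ≤ R ∧
      |∑ j ∈ range (m + 2 + 1), (c (φ j) : ℝ) * (j * ((i : ℝ) / N) ^ (j - 1))| ≤ R with hSj
  have hcov : S ⊆ G.biUnion Sj := by
    intro c hc
    obtain ⟨hcH, _, t, ht, h1, h2⟩ := hS c hc
    have ht' := abs_le.1 ht
    rw [Finset.mem_biUnion]
    set i : ℤ := ⌊t * N⌋ with hi
    have hi1 : (i : ℝ) ≤ t * N := Int.floor_le _
    have hi2 : t * N < i + 1 := Int.lt_floor_add_one _
    have hil : -(N : ℤ) ≤ i := by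
      rw [hi, Int.le_floor]
      push_cast
      nlinarith
    have hiu : i ≤ (N : ℤ) := by
      have : (i : ℝ) ≤ N := by nlinarith
      exact_mod_cast this
    have hs1 : |(i : ℝ) / N| ≤ 1 := by
      rw [abs_div, abs_of_pos hN0, div_le_one hN0, abs_le]
      constructor
      · exact_mod_cast hil
      · exact_mod_cast hiu
    have hst : |(i : ℝ) / N - t| ≤ 1 / A := by
      have e : (i : ℝ) / N - t = (i - t * N) / N := by field_simp
      rw [e, abs_div, abs_of_pos hN0]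
      have h5 : |(i : ℝ) - t * N| ≤ 1 := by
        rw [abs_le]
        constructor <;> linarith
      calc |(i : ℝ) - t * N| / N ≤ 1 / N := div_le_div_of_nonneg_right h5 hN0.le
        _ ≤ 1 / A := one_div_le_one_div_of_le hA0 hNA
    refine ⟨i, Finset.mem_Icc.2 ⟨hil, hiu⟩, ?_⟩
    rw [hSj]
    simp only [Finset.mem_filter]
    have hcast : (((m + 2 : ℕ) : ℝ) + 1) = (m : ℝ) + 3 := by push_cast; ring
    refine ⟨hc, ?_, ?_⟩
    · have h5 := grid (m + 2) H (fun j => c (φ j)) (fun j _ => hcH _) A hA t ((i : ℝ) / N) ht hs1 hst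
        (fun _ => 1) (fun j => j) (fun j _ => by rw [abs_one, hcast]; linarith [(Nat.cast_nonneg m : (0 : ℝ) ≤ m)])
        (fun j hj => by omega) (by simpa only [one_mul] using h1)
      rw [hcast] at h5
      simpa only [one_mul] using h5
    · have h5 := grid (m + 2) H (fun j => c (φ j)) (fun j _ => hcH _) A hA t ((i : ℝ) / N) ht hs1 hst
        (fun j => (j : ℝ)) (fun j => j - 1) (fun j hj => by
          rw [Nat.abs_cast]
          have : (j : ℝ) ≤ ((m + 2 : ℕ) : ℝ) := by exact_mod_cast hj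
          linarith)
        (fun j hj => by omega) h2
      rw [hcast] at h5
      exact h5
  have hcard : ∀ i ∈ G, (((Sj i).card : ℕ) : ℝ) ≤ (2 * R + 1) ^ 2 * (2 * (H : ℝ) + 1) ^ (Fintype.card ι - 3) := by
    intro i _
    refine bad_pt m H φ z h01 hj0 hj1 hjz h0z h1z ((i : ℝ) / N) R hR0 (Sj i) ?_
    intro c hc
    rw [hSj] at hc
    simp only [Finset.mem_filter] at hc
    exact ⟨(hS c hc.1).1, (hS c hc.1).2.1, hc.2.1, hc.2.2⟩
  have h1 : (S.card : ℝ) ≤ ∑ i ∈ G, (((Sj i).card : ℕ) : ℝ) := by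
    have h2 := (Finset.card_le_card hcov).trans Finset.card_biUnion_le
    exact_mod_cast h2
  have hGc : (G.card : ℝ) = 2 * N + 1 := by
    rw [hG, Int.card_Icc]
    have : ((N : ℤ) + 1 - -(N : ℤ)).toNat = 2 * N + 1 := by omega
    rw [this]
    push_cast
    ring
  have hHA : 1 ≤ (H : ℝ) / A := by rwa [one_le_div hA0]
  have hR1 : 2 * R + 1 ≤ 3 * K * (H / A) := by
    have h3 : 1 ≤ K * (H / A) := by nlinarith
    rw [hR]
    linarith
  have hG1 : 2 * (N : ℝ) + 1 ≤ 5 * A := by linarith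
  have hP0 : (0 : ℝ) ≤ (2 * (H : ℝ) + 1) ^ (Fintype.card ι - 3) := by positivity
  have hpow : (H : ℝ) ^ 2 * (2 * (H : ℝ) + 1) ^ (Fintype.card ι - 3) ≤ (2 * (H : ℝ) + 1) ^ (Fintype.card ι - 1) := by
    have e : Fintype.card ι - 1 = 2 + (Fintype.card ι - 3) := by omega
    rw [e, pow_add]
    refine mul_le_mul_of_nonneg_right (pow_le_pow_left₀ hH0.le (by linarith) 2) hP0
  calc (S.card : ℝ) ≤ ∑ i ∈ G, (((Sj i).card : ℕ) : ℝ) := h1
    _ ≤ ∑ _i ∈ G, (2 * R + 1) ^ 2 * (2 * (H : ℝ) + 1) ^ (Fintype.card ι - 3) := Finset.sum_le_sum hcard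
    _ = (2 * N + 1) * ((2 * R + 1) ^ 2 * (2 * (H : ℝ) + 1) ^ (Fintype.card ι - 3)) := by
        rw [Finset.sum_const, nsmul_eq_mul, hGc]
    _ ≤ (5 * A) * ((3 * K * (H / A)) ^ 2 * (2 * (H : ℝ) + 1) ^ (Fintype.card ι - 3)) := by
        refine mul_le_mul hG1 ?_ (by positivity) (by positivity)
        exact mul_le_mul_of_nonneg_right (pow_le_pow_left₀ (by positivity) hR1 2) hP0
    _ = 5 * (3 * K) ^ 2 * ((H : ℝ) ^ 2 * (2 * (H : ℝ) + 1) ^ (Fintype.card ι - 3)) / A := by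
        field_simp
    _ ≤ 5 * (3 * K) ^ 2 * (2 * (H : ℝ) + 1) ^ (Fintype.card ι - 1) / A := by
        refine div_le_div_of_nonneg_right ?_ hA0.le
        exact mul_le_mul_of_nonneg_left hpow (by positivity)

private theorem ix_inj {n a b c d : ℕ} (h : a + b ≤ n) (h' : c + d ≤ n) (e : (ix a b h : Ix n) = ix c d h') :
    a = c ∧ b = d := by
  have h1 := congrArg (fun p : Ix n => (p.1.1.val, p.1.2.val)) e
  simpa [ix] using h1

theorem bad (n : ℕ) (hn : 2 ≤ n) : ∃ C : ℝ, 0 ≤ C ∧ ∀ (H : ℕ) (A : ℝ), 1 ≤ H → 1 ≤ A → A ≤ H →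
    ∀ S : Finset (Ix n → ℤ), (∀ c ∈ S, (∀ p, |c p| ≤ (H : ℤ)) ∧ co c 0 0 = 0 ∧
      (¬ Gd n (H / A) (co c) ∨ ¬ Gd n (H / A) (sw (co c)))) →
    (S.card : ℝ) ≤ C * (2 * (H : ℝ) + 1) ^ (Fintype.card (Ix n) - 1) / A := by
  classical
  obtain ⟨m, rfl⟩ : ∃ m, n = m + 2 := ⟨n - 2, by omega⟩
  refine ⟨2 * (5 * (3 * (1 + ((m : ℝ) + 3) ^ 3)) ^ 2), by positivity, ?_⟩
  intro H A hH hA hAH S hS
  have hA0 : 0 < A := by linarith
  have h3 : 3 ≤ Fintype.card (Ix (m + 2)) := by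
    rw [card_ix]
    have : 3 * 4 ≤ (m + 2 + 1) * (m + 2 + 2) := Nat.mul_le_mul (by omega) (by omega)
    omega
  set φ : ℕ → Ix (m + 2) := fun j => if h : j ≤ m + 2 then ix (m + 2 - j) j (by omega) else ix 0 0 (by omega) with hφ
  set ψ : ℕ → Ix (m + 2) := fun j => if h : j ≤ m + 2 then ix j (m + 2 - j) (by omega) else ix 0 0 (by omega) with hψ
  have hφj : ∀ j (h : j ≤ m + 2), φ j = ix (m + 2 - j) j (by omega) := fun j h => by
    rw [hφ]; exact dif_pos h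
  have hψj : ∀ j (h : j ≤ m + 2), ψ j = ix j (m + 2 - j) (by omega) := fun j h => by
    rw [hψ]; exact dif_pos h
  set S1 := S.filter fun c => ¬ Gd (m + 2) (H / A) (co c) with hS1
  set S2 := S.filter fun c => ¬ Gd (m + 2) (H / A) (sw (co c)) with hS2
  have hcov : S ⊆ S1 ∪ S2 := by
    intro c hc
    rw [Finset.mem_union, hS1, hS2, Finset.mem_filter, Finset.mem_filter]
    rcases (hS c hc).2.2 with h | h
    · exact Or.inl ⟨hc, h⟩
    · exact Or.inr ⟨hc, h⟩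
  have hzero : ∀ c : Ix (m + 2) → ℤ, co c 0 0 = 0 → c (ix 0 0 (by omega)) = 0 := by
    intro c h
    rwa [co_of_le c (by omega)] at h
  have hc1 : (S1.card : ℝ) ≤ 5 * (3 * (1 + ((m : ℝ) + 3) ^ 3)) ^ 2 *
      (2 * (H : ℝ) + 1) ^ (Fintype.card (Ix (m + 2)) - 1) / A := by
    refine bad_chart m H φ (ix 0 0 (by omega)) h3 ?_ ?_ ?_ ?_ ?_ ?_ A hA hAH S1 ?_
    · rw [hφj 0 (by omega), hφj 1 (by omega)]
      intro h
      have := ix_inj _ _ h
      omega
    · intro j hj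
      rw [hφj (j + 2) (by omega), hφj 0 (by omega)]
      intro h
      have := ix_inj _ _ h
      omega
    · intro j hj
      rw [hφj (j + 2) (by omega), hφj 1 (by omega)]
      intro h
      have := ix_inj _ _ h
      omega
    · intro j hj
      rw [hφj (j + 2) (by omega)]
      intro h
      have := ix_inj _ _ h
      omega
    · rw [hφj 0 (by omega)]
      intro h
      have := ix_inj _ _ h
      omega
    · rw [hφj 1 (by omega)]
      intro h
      have := ix_inj _ _ h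
      omega
    · intro c hc
      rw [hS1, Finset.mem_filter] at hc
      refine ⟨(hS c hc.1).1, hzero c (hS c hc.1).2.1, ?_⟩
      have h4 := hc.2
      unfold Gd at h4
      push Not at h4
      obtain ⟨t, ht, h5, h6⟩ := h4
      have hcf : ∀ j ∈ range (m + 2 + 1), co c (m + 2 - j) j = c (φ j) := by
        intro j hj
        have hj' : j ≤ m + 2 := by
          have := Finset.mem_range.1 hj
          omega
        rw [co_of_le c (by omega), hφj j hj']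
      refine ⟨t, ht, ?_, ?_⟩
      · rw [fm_aeval] at h5
        rwa [Finset.sum_congr rfl fun j hj => by rw [← hcf j hj]]
      · rw [fm_daeval] at h6
        rwa [Finset.sum_congr rfl fun j hj => by rw [← hcf j hj]]
  have hc2 : (S2.card : ℝ) ≤ 5 * (3 * (1 + ((m : ℝ) + 3) ^ 3)) ^ 2 *
      (2 * (H : ℝ) + 1) ^ (Fintype.card (Ix (m + 2)) - 1) / A := by
    refine bad_chart m H ψ (ix 0 0 (by omega)) h3 ?_ ?_ ?_ ?_ ?_ ?_ A hA hAH S2 ?_
    · rw [hψj 0 (by omega), hψj 1 (by omega)]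
      intro h
      have := ix_inj _ _ h
      omega
    · intro j hj
      rw [hψj (j + 2) (by omega), hψj 0 (by omega)]
      intro h
      have := ix_inj _ _ h
      omega
    · intro j hj
      rw [hψj (j + 2) (by omega), hψj 1 (by omega)]
      intro h
      have := ix_inj _ _ h
      omega
    · intro j hj
      rw [hψj (j + 2) (by omega)]
      intro h
      have := ix_inj _ _ h
      omega
    · rw [hψj 0 (by omega)]
      intro h
      have := ix_inj _ _ h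
      omega
    · rw [hψj 1 (by omega)]
      intro h
      have := ix_inj _ _ h
      omega
    · intro c hc
      rw [hS2, Finset.mem_filter] at hc
      refine ⟨(hS c hc.1).1, hzero c (hS c hc.1).2.1, ?_⟩
      have h4 := hc.2
      unfold Gd at h4
      push Not at h4
      obtain ⟨t, ht, h5, h6⟩ := h4
      have hcf : ∀ j ∈ range (m + 2 + 1), sw (co c) (m + 2 - j) j = c (ψ j) := by
        intro j hj
        have hj' : j ≤ m + 2 := by
          have := Finset.mem_range.1 hj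
          omega
        show co c j (m + 2 - j) = _
        rw [co_of_le c (by omega), hψj j hj']
      refine ⟨t, ht, ?_, ?_⟩
      · rw [fm_aeval] at h5
        rwa [Finset.sum_congr rfl fun j hj => by rw [← hcf j hj]]
      · rw [fm_daeval] at h6
        rwa [Finset.sum_congr rfl fun j hj => by rw [← hcf j hj]]
  have h4 : (S.card : ℝ) ≤ S1.card + S2.card := by
    have h5 := (Finset.card_le_card hcov).trans (Finset.card_union_le S1 S2)
    exact_mod_cast h5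
  calc (S.card : ℝ) ≤ S1.card + S2.card := h4
    _ ≤ 5 * (3 * (1 + ((m : ℝ) + 3) ^ 3)) ^ 2 * (2 * (H : ℝ) + 1) ^ (Fintype.card (Ix (m + 2)) - 1) / A +
        5 * (3 * (1 + ((m : ℝ) + 3) ^ 3)) ^ 2 * (2 * (H : ℝ) + 1) ^ (Fintype.card (Ix (m + 2)) - 1) / A :=
        add_le_add hc1 hc2
    _ = _ := by ring

end Pool.Agent.H8.AA
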