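import Pool.Agent.H8.AA.Def
import Pool.Agent.H36.AA.Fib
import Pool.Agent.H85.AA.Pol

/-! # [H8 AA BOX] Counting lemmas, and the translation from polynomials to coefficient vectors

`fib`: forget the coordinates in `J`: the map `c ↦ c` outside `J` (value `0` on `J`) goes to at most `(2H+1)^(|ι|-|J|)` vectors, fibres `≤ M`.
`img`: the same with a set `T` of representatives for `J = {i}`.
`card_ix`: `|Ix n| = (n+1)(n+2)/2`. `pol_coeff`, `pol_eval`, `pol_deg`: immediate from the definition. `pol_set`: `c ↦ pol c` is a bijection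
of the vectors in the box onto the polynomials of total degree `≤ n` and coefficients `≤ H` (inverse: `c p = F.coeff (p)`). -/

namespace Pool.Agent.H8.AA

open Finset

theorem fib {ι : Type} [Fintype ι] [DecidableEq ι] (J : Finset ι) (H M : ℕ) (S : Finset (ι → ℤ))
    (hS : ∀ c ∈ S, ∀ i, |c i| ≤ (H : ℤ))
    (h : ∀ c ∈ S, ∀ T : Finset (ι → ℤ), (∀ c' ∈ T, c' ∈ S ∧ ∀ i, i ∉ J → c' i = c i) → T.card ≤ M) :
    S.card ≤ M * (2 * H + 1) ^ (Fintype.card ι - J.card) :=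
  Pool.Agent.H36.AA.fib J H M S hS h

/-- one free coordinate; `T` contains the representatives with `c i = 0` -/
theorem img {ι : Type} [DecidableEq ι] (i : ι) (M : ℕ) (S T : Finset (ι → ℤ))
    (hT : ∀ c ∈ S, Function.update c i 0 ∈ T)
    (h : ∀ c ∈ S, ∀ R : Finset (ι → ℤ), (∀ c' ∈ R, c' ∈ S ∧ ∀ j, j ≠ i → c' j = c j) → R.card ≤ M) :
    S.card ≤ M * T.card :=
  Pool.Agent.H36.AA.img i M S T hT h

theorem card_ix (n : ℕ) : Fintype.card (Ix n) = (n + 1) * (n + 2) / 2 :=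
  Pool.Agent.H36.AA.card_ix n

theorem pol_coeff {n : ℕ} (c : Ix n → ℤ) (m : Fin 2 →₀ ℕ) : (pol c).coeff m = co c (m 0) (m 1) :=
  Pool.Agent.H85.AA.pol_coeff c m

theorem pol_eval {n : ℕ} (c : Ix n → ℤ) (P : Fin 2 → ℤ) : MvPolynomial.eval P (pol c) = ev n (co c) (P 0) (P 1) :=
  Pool.Agent.H85.AA.pol_eval c P

theorem pol_deg {n : ℕ} (c : Ix n → ℤ) : (pol c).totalDegree ≤ n :=
  Pool.Agent.H85.AA.pol_deg c

/-- the vectors in the box -/
noncomputable def box (n H : ℕ) : Finset (Ix n → ℤ) := Fintype.piFinset fun _ => Icc (-(H : ℤ)) H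

theorem mem_box {n H : ℕ} {c : Ix n → ℤ} : c ∈ box n H ↔ ∀ p, |c p| ≤ (H : ℤ) := by
  simp [box, Fintype.mem_piFinset, abs_le]

theorem card_box (n H : ℕ) : (box n H).card = (2 * H + 1) ^ ((n + 1) * (n + 2) / 2) :=
  Pool.Agent.H36.AA.card_box' n H

theorem pol_set (n H : ℕ) (Q : MvPolynomial (Fin 2) ℤ → Prop) :
    Set.ncard {F : MvPolynomial (Fin 2) ℤ | F.totalDegree ≤ n ∧ (∀ m, |F.coeff m| ≤ (H : ℤ)) ∧ Q F} =
      Set.ncard {c : Ix n → ℤ | c ∈ box n H ∧ Q (pol c)} := by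
  simp only [mem_box]
  exact Pool.Agent.H85.AA.pol_set n H Q

end Pool.Agent.H8.AA
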