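import Pool.Agent.H8.AA.Def
import Pool.Agent.H22.AA.Lin

/-! # [H8 AA LIN] Few integers with small value of a polynomial

`Q(k) = a ∏ (k - z_i)` over `ℂ`, `|a| ≥ 1`, `n` roots. If `|Q(k)| ≤ H` then `|k - z_i| ≤ H^(1/n)` for some `i`, so
`|k - Re z_i| ≤ H^(1/n)`; an interval of length `2R` contains at most `2R + 1` integers. Proved in `Pool.Agent.H22.AA.Lin`. -/

namespace Pool.Agent.H8.AA

open Polynomial

theorem lin (n : ℕ) (hn : 1 ≤ n) (Q : ℤ[X]) (hQ : Q.natDegree = n) (H : ℝ) (hH : 1 ≤ H) (S : Finset ℤ)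
    (hS : ∀ k ∈ S, |((Q.eval k : ℤ) : ℝ)| ≤ H) : (S.card : ℝ) ≤ n * (2 * H ^ (1 / (n : ℝ)) + 1) := by
  obtain ⟨hf, hc⟩ := Pool.Agent.H22.AA.card_small_values n hn Q hQ H hH
  refine le_trans ?_ hc
  have hsub : (S : Set ℤ) ⊆ {k : ℤ | |((Q.eval k : ℤ) : ℝ)| ≤ H} := fun k hk => hS k (by simpa using hk)
  have := Set.ncard_le_ncard hsub hf
  rw [Set.ncard_coe_finset] at this
  exact_mod_cast this

end Pool.Agent.H8.AA
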