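import Pool.Agent.H8.AA.Upd
import Pool.Agent.H8.AA.Med
import Pool.Agent.H8.AA.Bad

/-! # [H8 AA LVL] The middle range, all levels `A = 2^j` -/

namespace Pool.Agent.H8.AA

open Finset Polynomial

/-- good at the level `A`, both charts -/
def G2 (n : ℕ) (B : ℝ) (e : ℕ → ℕ → ℤ) : Prop := Gd n B e ∧ Gd n B (sw e)

private theorem gd_mono {n : ℕ} {B B' : ℝ} (h : B' ≤ B) {e : ℕ → ℕ → ℤ} (hg : Gd n B e) : Gd n B' e := fun t ht =>
  (hg t ht).imp (fun h1 => lt_of_le_of_lt h h1) (fun h1 => lt_of_le_of_lt h h1)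

/-- vectors in the middle range whose form is good at the level `A`: at most `C A H^(1/n) (1 + log H)` values of the constant coefficient -/
private theorem fibre (n : ℕ) (hn : 3 ≤ n) (E : ℕ) : ∃ C K : ℝ, 0 ≤ C ∧ 1 ≤ K ∧ ∀ (H : ℕ) (A : ℝ), 1 ≤ H → 1 ≤ A →
    ∀ c₀ : Ix n → ℤ, (∀ p, |c₀ p| ≤ (H : ℤ)) → Ir n (co c₀) → G2 n (H / A) (co c₀) → ∀ R : Finset (Ix n → ℤ),
    (∀ c ∈ R, (∀ p, |c p| ≤ (H : ℤ)) ∧ (∀ p, p ≠ i0 n → c p = c₀ p) ∧
      ∃ x y : ℤ, ev n (co c) x y = 0 ∧ K * A ^ 2 ≤ (max |x| |y| : ℤ) ∧ max |x| |y| ≤ (H : ℤ) ^ E) →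
    (R.card : ℝ) ≤ C * A * (H : ℝ) ^ (1 / (n : ℝ)) * (1 + Real.log H) := by
  classical
  obtain ⟨C, K, hC, hK, h⟩ := med n hn E
  refine ⟨C, K, hC, hK, fun H A hH hA c₀ hc₀ hir hgd R hR => ?_⟩
  obtain ⟨d, hd⟩ : ∃ d : Ix n → ℤ, d = Function.update c₀ (i0 n) 0 := ⟨_, rfl⟩
  have hn1 : 1 ≤ n := by omega
  have key : ∀ c ∈ R, ∃ P : ℤ × ℤ, ev n (co d) P.1 P.2 = -c (i0 n) ∧ K * A ^ 2 ≤ (max |P.1| |P.2| : ℤ) ∧
      max |P.1| |P.2| ≤ (H : ℤ) ^ E := by
    intro c hc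
    obtain ⟨h1, h2, x, y, h3, h4, h5⟩ := hR c hc
    refine ⟨(x, y), ?_, h4, h5⟩
    have h6 : Function.update c (i0 n) 0 = d := by
      rw [hd]
      funext p
      by_cases hp : p = i0 n
      · rw [hp]
        simp
      · rw [Function.update_of_ne hp, Function.update_of_ne hp]
        exact h2 p hp
    have h7 := ev_upd c x y
    rw [h3, h6] at h7
    show ev n (co d) x y = _
    linarith
  choose! f hf using key
  have hinj : Set.InjOn f (R : Set (Ix n → ℤ)) := by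
    intro c hc c' hc' hcc
    have h1 := (hf c hc).1
    have h2 := (hf c' hc').1
    rw [hcc, h2] at h1
    funext p
    by_cases hp : p = i0 n
    · rw [hp]
      linarith
    · rw [(hR c hc).2.1 p hp, (hR c' hc').2.1 p hp]
  rw [← Finset.card_image_of_injOn hinj]
  refine h (co d) H A hH hA ?_ ?_ ?_ ?_ (R.image f) ?_
  · rw [hd]
    exact bd_of (box_upd hc₀)
  · rw [hd]
    exact (ir_upd hn1 _ _).2 hir
  · rw [hd]
    exact (gd_upd hn1 _ _ _).2 hgd.1
  · rw [hd]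
    exact (gds_upd hn1 _ _ _).2 hgd.2
  · intro P hP
    obtain ⟨c, hc, rfl⟩ := Finset.mem_image.1 hP
    obtain ⟨h1, h2, h3⟩ := hf c hc
    refine ⟨?_, h2, h3⟩
    rw [h1, abs_neg]
    exact (hR c hc).1 _

theorem lvl (n : ℕ) (hn : 3 ≤ n) (E : ℕ) : ∃ C K : ℝ, 0 ≤ C ∧ 1 ≤ K ∧ ∀ H : ℕ, 1 ≤ H → ∀ S : Finset (Ix n → ℤ),
    (∀ c ∈ S, (∀ p, |c p| ≤ (H : ℤ)) ∧ Ir n (co c) ∧
      ∃ x y : ℤ, ev n (co c) x y = 0 ∧ K * (H : ℝ) ^ 2 ≤ (max |x| |y| : ℤ) ∧ max |x| |y| ≤ (H : ℤ) ^ E) →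
    (S.card : ℝ) ≤ C * (2 * (H : ℝ) + 1) ^ (Fintype.card (Ix n) - 1) * (H : ℝ) ^ (1 / (n : ℝ)) *
      (1 + Real.log H) ^ 2 := by
  classical
  obtain ⟨C₁, K, hC₁, hK, h₁⟩ := fibre n hn E
  obtain ⟨C₂, hC₂, h₂⟩ := bad n (by omega)
  have hn1 : 1 ≤ n := by omega
  refine ⟨(1 + 2) * (2 * C₁ * (1 + C₂)) + 6 * C₂, K, by positivity, hK, fun H hH S hS => ?_⟩
  have hH1 : (1 : ℝ) ≤ H := by exact_mod_cast hH
  have hH0 : (0 : ℝ) < H := by linarith
  obtain ⟨W, hW⟩ : ∃ W : ℝ, W = (2 * (H : ℝ) + 1) ^ (Fintype.card (Ix n) - 1) := ⟨_, rfl⟩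
  obtain ⟨L, hL⟩ : ∃ L : ℝ, L = 1 + Real.log H := ⟨_, rfl⟩
  obtain ⟨Y, hY⟩ : ∃ Y : ℝ, Y = (H : ℝ) ^ (1 / (n : ℝ)) := ⟨_, rfl⟩
  have hL1 : 1 ≤ L := by
    rw [hL]
    linarith [Real.log_nonneg hH1]
  have hY1 : 1 ≤ Y := by
    rw [hY]
    exact Real.one_le_rpow hH1 (by positivity)
  have hW0 : 0 < W := by
    rw [hW]
    positivity
  rw [← hW, ← hY, ← hL]
  -- the vectors with constant coefficient zero
  obtain ⟨Z, hZ⟩ : ∃ Z : Finset (Ix n → ℤ), Z = (box n H).filter (fun c => c (i0 n) = 0) := ⟨_, rfl⟩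
  have hZc : (Z.card : ℝ) ≤ W := by
    have h3 : Z.card ≤ 1 * (2 * H + 1) ^ (Fintype.card (Ix n) - ({i0 n} : Finset (Ix n)).card) := by
      refine fib {i0 n} H 1 Z (fun c hc => ?_) (fun c hc T hT => ?_)
      · rw [hZ, Finset.mem_filter] at hc
        exact mem_box.1 hc.1
      · rw [Finset.card_le_one]
        intro a ha b hb
        funext p
        by_cases hp : p = i0 n
        · rw [hp]
          have h4 := (hT a ha).1
          have h5 := (hT b hb).1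
          rw [hZ, Finset.mem_filter] at h4 h5
          rw [h4.2, h5.2]
        · rw [(hT a ha).2 p (by simpa using hp), (hT b hb).2 p (by simpa using hp)]
    rw [one_mul, Finset.card_singleton] at h3
    rw [hW]
    exact_mod_cast h3
  obtain ⟨J, hJ⟩ : ∃ J : ℕ, J = Nat.log 2 H := ⟨_, rfl⟩
  have hJ1 : 2 ^ J ≤ H := by
    rw [hJ]
    exact Nat.pow_log_le_self 2 (by omega)
  have hJ2 : H < 2 ^ (J + 1) := by
    rw [hJ]
    exact Nat.lt_pow_succ_log_self (by norm_num) _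
  have hJL : (J : ℝ) ≤ 2 * L - 2 := by
    have h3 : (2 : ℝ) ^ J ≤ H := by exact_mod_cast hJ1
    have h4 := Real.log_le_log (by positivity) h3
    rw [Real.log_pow] at h4
    have h5 : (1 / 2 : ℝ) ≤ Real.log 2 := by
      have := Real.log_two_gt_d9
      linarith
    have h6 : (J : ℝ) * (1 / 2) ≤ J * Real.log 2 := mul_le_mul_of_nonneg_left h5 (Nat.cast_nonneg J)
    rw [hL]
    linarith
  -- levels
  have hupd : ∀ c ∈ S, Function.update c (i0 n) 0 ∈ Z := by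
    intro c hc
    rw [hZ, Finset.mem_filter]
    exact ⟨mem_box.2 (box_upd (hS c hc).1), by simp⟩
  -- one good level
  have hgood : ∀ (j : ℕ), j ≤ J → ∀ (T S' : Finset (Ix n → ℤ)), S' ⊆ S → (∀ c ∈ S', G2 n (H / 2 ^ j) (co c)) →
      (∀ c ∈ S', Function.update c (i0 n) 0 ∈ T) → (S'.card : ℝ) ≤ C₁ * 2 ^ j * Y * L * T.card := by
    intro j hj T S' hS' hG hT
    have hj2 : (2 : ℝ) ^ j ≤ H := by
      have h3 : (2 : ℕ) ^ j ≤ H := (Nat.pow_le_pow_right (by norm_num) hj).trans hJ1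
      exact_mod_cast h3
    have hpos : 0 ≤ C₁ * 2 ^ j * Y * L := by positivity
    have h3 := img (i0 n) ⌊C₁ * 2 ^ j * Y * L⌋₊ S' T hT (fun c hc R hR => by
      rw [Nat.le_floor_iff hpos]
      have h4 := h₁ H (2 ^ j) hH (one_le_pow₀ (by norm_num)) c (hS c (hS' hc)).1 (hS c (hS' hc)).2.1 (hG c hc) R
        (fun c' hc' => by
          obtain ⟨h5, h6⟩ := hR c' hc'
          obtain ⟨h7, h8, x, y, h9, h10, h11⟩ := hS c' (hS' h5)
          refine ⟨h7, h6, x, y, h9, le_trans ?_ h10, h11⟩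
          refine mul_le_mul_of_nonneg_left ?_ (by linarith)
          exact pow_le_pow_left₀ (by positivity) hj2 2)
      rw [hY, hL]
      exact h4)
    have h4 : (S'.card : ℝ) ≤ (⌊C₁ * 2 ^ j * Y * L⌋₊ : ℝ) * T.card := by exact_mod_cast h3
    refine h4.trans (mul_le_mul_of_nonneg_right (Nat.floor_le hpos) (by positivity))
  -- the sets
  obtain ⟨Tj, hTj⟩ : ∃ Tj : ℕ → Finset (Ix n → ℤ), ∀ j, Tj j = Z.filter (fun c => ¬ G2 n (H / 2 ^ j) (co c)) :=
    ⟨_, fun _ => rfl⟩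
  have hTc : ∀ j ≤ J, ((Tj j).card : ℝ) ≤ C₂ * W / 2 ^ j := by
    intro j hj
    have hj2 : (2 : ℝ) ^ j ≤ H := by
      have h3 : (2 : ℕ) ^ j ≤ H := (Nat.pow_le_pow_right (by norm_num) hj).trans hJ1
      exact_mod_cast h3
    rw [hW]
    refine h₂ H (2 ^ j) hH (one_le_pow₀ (by norm_num)) hj2 (Tj j) (fun c hc => ?_)
    rw [hTj, Finset.mem_filter, hZ, Finset.mem_filter] at hc
    refine ⟨mem_box.1 hc.1.1, ?_, ?_⟩
    · rw [co_of_le c (by omega)]
      exact hc.1.2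
    · by_contra hcon
      push Not at hcon
      exact hc.2 hcon
  obtain ⟨S0, hS0⟩ : ∃ S0 : Finset (Ix n → ℤ), S0 = S.filter (fun c => G2 n (H / 2 ^ 0) (co c)) := ⟨_, rfl⟩
  obtain ⟨Sj, hSj⟩ : ∃ Sj : ℕ → Finset (Ix n → ℤ), ∀ j, Sj j =
      S.filter (fun c => ¬ G2 n (H / 2 ^ j) (co c) ∧ G2 n (H / 2 ^ (j + 1)) (co c)) := ⟨_, fun _ => rfl⟩
  obtain ⟨Sb, hSb⟩ : ∃ Sb : Finset (Ix n → ℤ), Sb = S.filter (fun c => ¬ G2 n (H / 2 ^ J) (co c)) := ⟨_, rfl⟩
  have hcov : S ⊆ S0 ∪ (range J).biUnion Sj ∪ Sb := by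
    intro c hc
    by_contra hcon
    simp only [Finset.mem_union, Finset.mem_biUnion, not_or, not_exists, not_and] at hcon
    obtain ⟨⟨h3, h4⟩, h5⟩ := hcon
    have h6 : G2 n (H / 2 ^ J) (co c) := by
      by_contra h7
      exact h5 (by rw [hSb, Finset.mem_filter]; exact ⟨hc, h7⟩)
    have h7 : ∀ j ≤ J, ¬ G2 n (H / 2 ^ j) (co c) := by
      intro j
      induction j with
      | zero =>
        intro _ h8
        exact h3 (by rw [hS0, Finset.mem_filter]; exact ⟨hc, h8⟩)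
      | succ j ih =>
        intro hj h8
        exact h4 j (Finset.mem_range.2 (by omega)) (by
          rw [hSj, Finset.mem_filter]
          exact ⟨hc, ih (by omega), h8⟩)
    exact h7 J le_rfl h6
  have c0 : (S0.card : ℝ) ≤ C₁ * Y * L * W := by
    have h3 := hgood 0 (by omega) Z S0 (by rw [hS0]; exact Finset.filter_subset _ _)
      (fun c hc => by rw [hS0, Finset.mem_filter] at hc; exact hc.2)
      (fun c hc => hupd c (by rw [hS0, Finset.mem_filter] at hc; exact hc.1))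
    rw [pow_zero, mul_one] at h3
    exact h3.trans (mul_le_mul_of_nonneg_left hZc (by positivity))
  have cj : ∀ j ∈ range J, ((Sj j).card : ℝ) ≤ 2 * C₁ * C₂ * Y * L * W := by
    intro j hj
    have hj' := Finset.mem_range.1 hj
    have h3 := hgood (j + 1) (by omega) (Tj j) (Sj j) (by rw [hSj]; exact Finset.filter_subset _ _)
      (fun c hc => by rw [hSj, Finset.mem_filter] at hc; exact hc.2.2)
      (fun c hc => by
        rw [hSj, Finset.mem_filter] at hc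
        rw [hTj, Finset.mem_filter]
        refine ⟨hupd c hc.1, fun h4 => hc.2.1 ⟨?_, ?_⟩⟩
        · exact (gd_upd hn1 _ _ _).1 h4.1
        · exact (gds_upd hn1 _ _ _).1 h4.2)
    refine h3.trans ((mul_le_mul_of_nonneg_left (hTc j (by omega)) (by positivity)).trans (le_of_eq ?_))
    have h5 : (2 : ℝ) ^ j ≠ 0 := by positivity
    rw [pow_succ]
    field_simp
  have cb : (Sb.card : ℝ) ≤ 6 * C₂ * W := by
    have h3 := img (i0 n) (2 * H + 1) Sb (Tj J) (fun c hc => by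
        rw [hSb, Finset.mem_filter] at hc
        rw [hTj, Finset.mem_filter]
        refine ⟨hupd c hc.1, fun h4 => hc.2 ⟨?_, ?_⟩⟩
        · exact (gd_upd hn1 _ _ _).1 h4.1
        · exact (gds_upd hn1 _ _ _).1 h4.2) (fun c hc R hR => by
      have h4 : R.card = (R.image fun c' => c' (i0 n)).card := by
        rw [Finset.card_image_of_injOn]
        intro a ha b hb hab
        funext p
        by_cases hp : p = i0 n
        · rw [hp]
          exact hab
        · rw [(hR a ha).2 p hp, (hR b hb).2 p hp]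
      rw [h4]
      have h5 : R.image (fun c' => c' (i0 n)) ⊆ Finset.Icc (-(H : ℤ)) H := by
        intro z hz
        obtain ⟨c', hc', rfl⟩ := Finset.mem_image.1 hz
        have h6 := (hR c' hc').1
        rw [hSb, Finset.mem_filter] at h6
        rw [Finset.mem_Icc, ← abs_le]
        exact (hS c' h6.1).1 _
      refine (Finset.card_le_card h5).trans ?_
      rw [Int.card_Icc]
      omega)
    have h4 : (Sb.card : ℝ) ≤ (2 * H + 1) * (Tj J).card := by exact_mod_cast h3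
    have h5 := hTc J le_rfl
    have h6 : (H : ℝ) < 2 * 2 ^ J := by
      have : (H : ℝ) < 2 ^ (J + 1) := by exact_mod_cast hJ2
      rw [pow_succ] at this
      linarith
    have h7 : (0 : ℝ) < 2 ^ J := by positivity
    calc (Sb.card : ℝ) ≤ (2 * H + 1) * (Tj J).card := h4
      _ ≤ (2 * H + 1) * (C₂ * W / 2 ^ J) := mul_le_mul_of_nonneg_left h5 (by positivity)
      _ ≤ (3 * H) * (C₂ * W / 2 ^ J) := mul_le_mul_of_nonneg_right (by linarith) (by positivity)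
      _ = 3 * C₂ * W * (H / 2 ^ J) := by ring
      _ ≤ 3 * C₂ * W * 2 := by
          refine mul_le_mul_of_nonneg_left ?_ (by positivity)
          rw [div_le_iff₀ h7]
          linarith
      _ = 6 * C₂ * W := by ring
  have htot : (S.card : ℝ) ≤ C₁ * Y * L * W + J * (2 * C₁ * C₂ * Y * L * W) + 6 * C₂ * W := by
    have h3 : S.card ≤ S0.card + ∑ j ∈ range J, (Sj j).card + Sb.card := by
      refine (Finset.card_le_card hcov).trans ((Finset.card_union_le _ _).trans ?_)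
      refine Nat.add_le_add_right ((Finset.card_union_le _ _).trans ?_) _
      exact Nat.add_le_add_left Finset.card_biUnion_le _
    have h4 : (S.card : ℝ) ≤ S0.card + ∑ j ∈ range J, ((Sj j).card : ℝ) + Sb.card := by exact_mod_cast h3
    have h5 := Finset.sum_le_sum cj
    rw [Finset.sum_const, Finset.card_range, nsmul_eq_mul] at h5
    linarith
  refine htot.trans ?_
  have hLL : L ≤ L ^ 2 := by nlinarith
  have e1 : C₁ * Y * L * W ≤ C₁ * Y * L ^ 2 * W := by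
    have : 0 ≤ C₁ * Y * W := by positivity
    nlinarith
  have e2 : (J : ℝ) * (2 * C₁ * C₂ * Y * L * W) ≤ (2 * L) * (2 * C₁ * C₂ * Y * L * W) :=
    mul_le_mul_of_nonneg_right (by linarith) (by positivity)
  have e3 : 6 * C₂ * W ≤ 6 * C₂ * W * Y * L ^ 2 := by
    have h3 : 1 ≤ Y * L ^ 2 := by nlinarith
    have h4 : 0 ≤ 6 * C₂ * W := by positivity
    nlinarith
  have e4 : 0 ≤ C₁ * Y * L ^ 2 * W := by positivity
  have e5 : 0 ≤ C₁ * C₂ * Y * L ^ 2 * W := by positivity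
  nlinarith

end Pool.Agent.H8.AA
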