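import Pool.Agent.H8.AA.Def
import Pool.Agent.H6.AB.Col

/-! # [H8 AA STR] Three integer points near one branch at infinity are collinear

NOTATION. `u_i = 1/x_i`, `t_i = y_i/x_i`, `φ_k(t) = aeval t (fm e k)`, `Φ(u,t) = ∑_{k ≤ n} u^(n-k) φ_k(t)`; `ev n e x_i y_i = x_i^n Φ(u_i,t_i)` (`ev_eq`),
so `|Φ(u_i,t_i)| ≤ H X^-n`. The analysis is in `H6/AB/Three.lean` (`three`) and `H6/AB/Col.lean` (`collinear`). -/

namespace Pool.Agent.H8.AA

open Polynomial Pool.Agent.H6.AB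

/-- the coefficients of `Φ` -/
private noncomputable def bb (n : ℕ) (e : ℕ → ℕ → ℤ) (k j : ℕ) : ℝ :=
  if k + j ≤ n then (e (n - k - j) j : ℝ) else 0

private theorem bb_inner (n : ℕ) (e : ℕ → ℕ → ℤ) {k : ℕ} (hk : k ≤ n) (g : ℕ → ℝ) :
    ∑ j ∈ Finset.range (n + 1), bb n e k j * g j =
      ∑ j ∈ Finset.range (n - k + 1), (e (n - k - j) j : ℝ) * g j := by
  symm
  apply Finset.sum_subset_zero_on_sdiff
  · intro j hj
    rw [Finset.mem_range] at hj ⊢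
    omega
  · intro j hj
    rw [Finset.mem_sdiff, Finset.mem_range, Finset.mem_range] at hj
    have : ¬ k + j ≤ n := by omega
    rw [bb, if_neg this, zero_mul]
  · intro j hj
    rw [Finset.mem_range] at hj
    have : k + j ≤ n := by omega
    rw [bb, if_pos this]

private theorem Ph_bb (n : ℕ) (e : ℕ → ℕ → ℤ) (u t : ℝ) :
    Ph n (bb n e) u t = ∑ k ∈ Finset.range (n + 1), u ^ (n - k) * aeval t (fm e k) := by
  unfold Ph
  rw [← Finset.sum_range_reflect]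
  apply Finset.sum_congr rfl
  intro k hk
  rw [Finset.mem_range] at hk
  have h1 : n + 1 - 1 - k = n - k := by omega
  have h2 : n - (n - k) = k := by omega
  rw [h1, bb_inner n e (by omega) (fun j => u ^ (n - k) * t ^ j), h2, fm_aeval, Finset.mul_sum]
  apply Finset.sum_congr rfl
  intro j _
  ring

private theorem Ph_zero (n : ℕ) (e : ℕ → ℕ → ℤ) (t : ℝ) : Ph n (bb n e) 0 t = aeval t (fm e n) := by
  rw [Ph_bb, Finset.sum_eq_single n]
  · simp
  · intro k hk hkn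
    rw [Finset.mem_range] at hk
    rw [zero_pow (by omega), zero_mul]
  · intro h
    exact absurd (Finset.mem_range.2 (Nat.lt_succ_self n)) h

private theorem Pht_zero (n : ℕ) (e : ℕ → ℕ → ℤ) (t : ℝ) :
    Pht n (bb n e) 0 t = aeval t (derivative (fm e n)) := by
  unfold Pht
  rw [Finset.sum_eq_single 0]
  · rw [bb_inner n e (Nat.zero_le n) (fun j => j * 0 ^ 0 * t ^ (j - 1)), fm_daeval]
    simp
  · intro k _ hk
    apply Finset.sum_eq_zero
    intro j _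
    rw [zero_pow hk]
    ring
  · intro h
    exact absurd (Finset.mem_range.2 (Nat.succ_pos n)) h

theorem str (n : ℕ) (hn : 3 ≤ n) : ∃ K : ℝ, 1 ≤ K ∧ ∀ (e : ℕ → ℕ → ℤ) (H : ℕ) (A X : ℝ), 1 ≤ H → 1 ≤ A →
    Bd n H e → Gd n (H / A) e → K * A ^ 2 ≤ X → ∀ x y : Fin 3 → ℤ,
    (∀ i, X ≤ |(x i : ℝ)| ∧ |(x i : ℝ)| ≤ 2 * X ∧ |y i| ≤ |x i| ∧ |ev n e (x i) (y i)| ≤ (H : ℤ)) →
    (∀ i j, 0 < x i * x j) → (∀ i j, |(x i : ℝ) - x j| ≤ X / (K * A)) →
    (∀ i j, ∀ s ∈ Set.uIcc ((y i : ℝ) / x i) ((y j : ℝ) / x j), aeval s (derivative (fm e n)) ≠ 0) →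
    (x 1 - x 0) * (y 2 - y 0) = (x 2 - x 0) * (y 1 - y 0) := by
  have hM4 : 4 ≤ cM n := by
    unfold cM
    have : 0 ≤ 4 * (n : ℝ) ^ 2 * ((n : ℝ) + 1) ^ 2 + 2 * n * ((n : ℝ) + 1) ^ 2 := by positivity
    linarith
  refine ⟨6 * cM n, by linarith, ?_⟩
  intro e H A X hH hA hB hG hX x y hxy _ hd hz
  have hHr : (0 : ℝ) < H := by
    have : 0 < H := hH
    exact_mod_cast this
  have hX0 : 0 < X := by nlinarith [mul_nonneg (by linarith : (0 : ℝ) ≤ 6 * cM n) (by nlinarith : (0 : ℝ) ≤ A ^ 2 - 1)]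
  have hb : ∀ k ≤ n, ∀ j ≤ n, |bb n e k j| ≤ (H : ℝ) := by
    intro k _ j _
    unfold bb
    split_ifs with h
    · have := hB (n - k - j) j (by omega)
      exact_mod_cast this
    · rw [abs_zero]
      exact hHr.le
  have h0 : ∀ k j, n < k + j → bb n e k j = 0 := by
    intro k j h
    rw [bb, if_neg (by omega)]
  have hF : ∀ i, |Fb n (bb n e) (x i) (y i)| ≤ (H : ℝ) := by
    intro i
    have hx0 : x i ≠ 0 := by
      intro h
      have := (hxy i).1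
      rw [h] at this
      simp at this
      linarith
    have hx0' : (x i : ℝ) ≠ 0 := by exact_mod_cast hx0
    rw [Fb_eq h0 hx0', Ph_bb, ← ev_eq n e (x i) (y i) hx0]
    have := (hxy i).2.2.2
    exact_mod_cast this
  have hy : ∀ i, |(y i : ℝ)| ≤ |(x i : ℝ)| := by
    intro i
    have := (hxy i).2.2.1
    exact_mod_cast this
  have h := collinear hn hHr hA hb h0 hX (x1 := x 0) (x2 := x 1) (x3 := x 2) (y1 := y 0) (y2 := y 1) (y3 := y 2)
    (hxy 0).1 (hxy 1).1 (hxy 2).1 (hxy 0).2.1 (hxy 1).2.1 (hxy 2).2.1 (hy 0) (hy 1) (hy 2) (hF 0) (hF 1) (hF 2)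
    (hd 1 0) (hd 2 0)
    (fun t ht => by rw [Ph_zero, Pht_zero]; exact hG t ht)
    (fun z hz' => by rw [Pht_zero]; exact hz 0 1 z hz')
    (fun z hz' => by rw [Pht_zero]; exact hz 0 2 z hz')
  linarith

end Pool.Agent.H8.AA
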