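import Pool.Agent.H8.AA.Box

/-! # [H8 AA UPD] Change of the constant coefficient -/

namespace Pool.Agent.H8.AA

open Finset Polynomial

/-- the index of the constant coefficient -/
abbrev i0 (n : ℕ) : Ix n := ix 0 0 (by omega)

theorem ix_inj {n a b a' b' : ℕ} (h : a + b ≤ n) (h' : a' + b' ≤ n) : ix a b h = ix a' b' h' ↔ a = a' ∧ b = b' := by
  unfold ix
  simp [Subtype.mk.injEq, Prod.mk.injEq, Fin.mk.injEq]

theorem co_upd_ne {n : ℕ} (c : Ix n → ℤ) (v : ℤ) {a b : ℕ} (h : a ≠ 0 ∨ b ≠ 0) :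
    co (Function.update c (i0 n) v) a b = co c a b := by
  unfold co
  split_ifs with h1
  · rw [Function.update_of_ne]
    intro h2
    have := (ix_inj h1 (by omega)).1 h2
    omega
  · rfl

theorem co_upd_zero {n : ℕ} (c : Ix n → ℤ) (v : ℤ) : co (Function.update c (i0 n) v) 0 0 = v := by
  rw [co_of_le _ (by omega)]
  simp

theorem fm_upd {n : ℕ} (hn : 1 ≤ n) (c : Ix n → ℤ) (v : ℤ) :
    fm (co (Function.update c (i0 n) v)) n = fm (co c) n := by
  unfold fm
  refine Finset.sum_congr rfl fun j hj => ?_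
  rw [co_upd_ne c v (by
    have := Finset.mem_range.1 hj
    omega)]

theorem fm_sw_upd {n : ℕ} (hn : 1 ≤ n) (c : Ix n → ℤ) (v : ℤ) :
    fm (sw (co (Function.update c (i0 n) v))) n = fm (sw (co c)) n := by
  unfold fm sw
  refine Finset.sum_congr rfl fun j hj => ?_
  rw [co_upd_ne c v (by
    have := Finset.mem_range.1 hj
    omega)]

theorem ev_upd {n : ℕ} (c : Ix n → ℤ) (x y : ℤ) :
    ev n (co c) x y = ev n (co (Function.update c (i0 n) 0)) x y + c (i0 n) := by
  have h0 : ∀ k ∈ range (n + 1), ∀ j ∈ range (k + 1), co c (k - j) j * (x ^ (k - j) * y ^ j) =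
      co (Function.update c (i0 n) 0) (k - j) j * (x ^ (k - j) * y ^ j) +
        if k = 0 ∧ j = 0 then c (i0 n) else 0 := by
    intro k _ j hj
    have hj' := Finset.mem_range.1 hj
    by_cases h : k = 0 ∧ j = 0
    · obtain ⟨rfl, rfl⟩ := h
      rw [if_pos ⟨rfl, rfl⟩, Nat.sub_zero, co_upd_zero, co_of_le _ (by omega)]
      simp
    · rw [if_neg h, add_zero, co_upd_ne c 0 (by omega)]
  unfold ev
  rw [Finset.sum_congr rfl fun k hk => Finset.sum_congr rfl (h0 k hk)]
  simp only [Finset.sum_add_distrib]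
  congr 1
  rw [Finset.sum_eq_single 0]
  · rw [Finset.sum_eq_single 0]
    · simp
    · intro j _ hj
      rw [if_neg]
      omega
    · intro h
      exact absurd (Finset.mem_range.2 (by omega)) h
  · intro k _ hk
    refine Finset.sum_eq_zero fun j _ => ?_
    rw [if_neg]
    omega
  · intro h
    exact absurd (Finset.mem_range.2 (by omega)) h

theorem ir_upd {n : ℕ} (hn : 1 ≤ n) (c : Ix n → ℤ) (v : ℤ) :
    Ir n (co (Function.update c (i0 n) v)) ↔ Ir n (co c) := by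
  unfold Ir
  rw [fm_upd hn, co_upd_ne c v (by omega)]

theorem gd_upd {n : ℕ} (hn : 1 ≤ n) (B : ℝ) (c : Ix n → ℤ) (v : ℤ) :
    Gd n B (co (Function.update c (i0 n) v)) ↔ Gd n B (co c) := by
  unfold Gd
  rw [fm_upd hn]

theorem gds_upd {n : ℕ} (hn : 1 ≤ n) (B : ℝ) (c : Ix n → ℤ) (v : ℤ) :
    Gd n B (sw (co (Function.update c (i0 n) v))) ↔ Gd n B (sw (co c)) := by
  unfold Gd
  rw [fm_sw_upd hn]

theorem bd_of {n H : ℕ} {c : Ix n → ℤ} (h : ∀ p, |c p| ≤ (H : ℤ)) : Bd n H (co c) := by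
  intro a b hab
  rw [co_of_le c hab]
  exact h _

theorem box_upd {n H : ℕ} {c : Ix n → ℤ} (h : ∀ p, |c p| ≤ (H : ℤ)) : ∀ p, |Function.update c (i0 n) 0 p| ≤ (H : ℤ) := by
  intro p
  by_cases hp : p = i0 n
  · rw [hp]
    simp
  · rw [Function.update_of_ne hp]
    exact h p

end Pool.Agent.H8.AA
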